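import Pool.Agent.N208.BT.Stm

set_option autoImplicit false

/-!
# Lie algebras of isometries of products of complex hyperbolic spaces: statements
-/

noncomputable section

namespace Pool.Agent.N208.BT

open Matrix

/-- **BT/SU.** The skew-hermitian operators of trace zero are spanned by the `i R(x, x)` with `x`
isotropic. -/
def S_SU : Prop := ∀ (n : ℕ) (X : M n), IsSk X → X.trace = 0 →
  X ∈ Submodule.span ℝ {Y : M n | ∃ x : V n, hf x x = 0 ∧ Y = Complex.I • R x x}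

/-- **BT/PI.** Ideals. -/
def S_PI : Prop := ∀ (n : ℕ) (𝔫 : Submodule ℝ (M n)),
  (∀ X ∈ 𝔫, IsSk X ∧ X.trace = 0) →
  (∀ x : V n, hf x x = 0 → ∀ Y ∈ 𝔫, (Complex.I • R x x) * Y - Y * (Complex.I • R x x) ∈ 𝔫) →
  (∃ X ∈ 𝔫, X ≠ 0) → ∀ x : V n, hf x x = 0 → Complex.I • R x x ∈ 𝔫

/-- a Lie algebra of pairs of skew-hermitian operators of trace zero with large projections -/
structure PR {n n' : ℕ} (𝔟 : Submodule ℝ (M n × M n')) : Prop where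
  br : ∀ p ∈ 𝔟, ∀ q ∈ 𝔟, p * q - q * p ∈ 𝔟
  sk1 : ∀ p ∈ 𝔟, IsSk p.1
  sk2 : ∀ p ∈ 𝔟, IsSk p.2
  tr1 : ∀ p ∈ 𝔟, p.1.trace = 0
  tr2 : ∀ p ∈ 𝔟, p.2.trace = 0
  all1 : ∀ x : V n, hf x x = 0 → ∃ Y, (Complex.I • R x x, Y) ∈ 𝔟
  all2 : ∀ y : V n', hf y y = 0 → ∃ X, (X, Complex.I • R y y) ∈ 𝔟

/-- **BT/P1.** Long roots correspond to long roots. -/
def S_P1 : Prop := ∀ (n n' : ℕ) (𝔟 : Submodule ℝ (M n × M n')), PR 𝔟 →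
  (∀ X : M n, (X, 0) ∈ 𝔟 → X = 0) → (∀ Y : M n', (0, Y) ∈ 𝔟 → Y = 0) →
  ∀ (u v : V n), hf u u = 0 → hf v v = 0 → hf u v = 1 → ∀ Y : M n', (Complex.I • R u u, Y) ∈ 𝔟 →
  ∃ (s : ℝ) (u' : V n'), (s = 1 ∨ s = -1) ∧ u' ≠ 0 ∧ hf u' u' = 0 ∧
    Y = ((s : ℂ) * Complex.I) • R u' u'

/-- **BT/P2.** The intertwining operator. -/
def S_P2 : Prop := ∀ (n n' : ℕ) (𝔟 : Submodule ℝ (M n × M n')), PR 𝔟 →
  (∀ X : M n, (X, 0) ∈ 𝔟 → X = 0) → (∀ Y : M n', (0, Y) ∈ 𝔟 → Y = 0) →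
  ∀ (u v : V n) (u' v' : V n'), hf u u = 0 → hf v v = 0 → hf u v = 1 → hf u' u' = 0 →
  hf v' v' = 0 → hf u' v' = 1 → (Complex.I • R u u, Complex.I • R u' u') ∈ 𝔟 →
  (Complex.I • R v v, Complex.I • R v' v') ∈ 𝔟 →
  ∃ S : Matrix (Fin (n' + 1)) (Fin (n + 1)) ℂ, S ≠ 0 ∧ ∀ p ∈ 𝔟, p.2 * S = S * p.1

/-- **BT/PA.** Two projections are independent or linked. -/
def S_PA : Prop := ∀ (n n' : ℕ) (𝔟 : Submodule ℝ (M n × M n')), PR 𝔟 →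
  (∀ x : V n, hf x x = 0 → (Complex.I • R x x, (0 : M n')) ∈ 𝔟) ∨
  (∃ S : Matrix (Fin (n' + 1)) (Fin (n + 1)) ℂ, S ≠ 0 ∧ ∀ p ∈ 𝔟, p.2 * S = S * p.1) ∨
  ∃ S : Matrix (Fin (n' + 1)) (Fin (n + 1)) ℂ, S ≠ 0 ∧ ∀ p ∈ 𝔟, p.2 * S = S * p.1.map star

end Pool.Agent.N208.BT
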