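import Mathlib

set_option autoImplicit false

/-!
# Lie algebras of isometries of the complex hyperbolic space: statements

The form `hf` of signature `(1, n)` on `ℂ ^ (n + 1)`, the operators `R a b : x ↦ hf x b • a`, and the
theorem: an irreducible perfect real Lie algebra `𝔯` of skew-hermitian operators contains `i R(x, x)`
for all isotropic `x`, or it commutes with an antilinear bijection `x ↦ C x̄`.
-/

noncomputable section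

namespace Pool.Agent.N208.BT

open Matrix

/-- vectors -/
abbrev V (n : ℕ) : Type := Fin (n + 1) → ℂ

/-- matrices -/
abbrev M (n : ℕ) : Type := Matrix (Fin (n + 1)) (Fin (n + 1)) ℂ

variable {n : ℕ}

/-- the hermitian form of signature `(1, n)` -/
def hf (x y : V n) : ℂ := x 0 * star (y 0) - ∑ i : Fin n, x i.succ * star (y i.succ)

/-- the operator `x ↦ hf x b • a` -/
def R (a b : V n) : M n := Matrix.of fun i j => a i * hf (Pi.single j 1) b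

/-- the operator `x ↦ hf x u • w - hf x w • u` -/
def N (u w : V n) : M n := R w u - R u w

/-- isometries -/
def IsU (g : M n) : Prop := ∀ x y : V n, hf (g *ᵥ x) (g *ᵥ y) = hf x y

/-- skew-hermitian operators -/
def IsSk (X : M n) : Prop := ∀ x y : V n, hf (X *ᵥ x) y + hf x (X *ᵥ y) = 0

/-- irreducible sets of operators -/
def Irr (S : Set (M n)) : Prop :=
  ∀ U : Submodule ℂ (V n), (∀ X ∈ S, ∀ u ∈ U, X *ᵥ u ∈ U) → U = ⊥ ∨ U = ⊤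

/-- a perfect irreducible real Lie algebra of skew-hermitian operators -/
structure RR (𝔯 : Submodule ℝ (M n)) : Prop where
  sk : ∀ X ∈ 𝔯, IsSk X
  br : ∀ X ∈ 𝔯, ∀ Y ∈ 𝔯, X * Y - Y * X ∈ 𝔯
  perf : 𝔯 ≤ Submodule.span ℝ {Z | ∃ X ∈ 𝔯, ∃ Y ∈ 𝔯, Z = X * Y - Y * X}
  irr : Irr (𝔯 : Set (M n))

/-- `𝔯` commutes with the antilinear bijection `x ↦ C x̄` -/
def RealType (𝔯 : Submodule ℝ (M n)) : Prop :=
  ∃ C : M n, IsUnit C.det ∧ ∀ X ∈ 𝔯, X * C = C * X.map star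

/-- a hyperbolic isometry with its two eigenvectors -/
structure Hyp (g : M n) (lam : ℂ) (u v : V n) : Prop where
  isU : IsU g
  one_lt : 1 < ‖lam‖
  hu : g *ᵥ u = lam • u
  hv : g *ᵥ v = (star lam)⁻¹ • v
  uu : hf u u = 0
  vv : hf v v = 0
  uv : hf u v = 1

/-- **BT/FP.** A group of linear maps with bounded orbits has a fixed point in every nonempty compact
convex set which is stable. -/
def S_FP : Prop := ∀ (E : Type) [NormedAddCommGroup E] [InnerProductSpace ℝ E]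
    [FiniteDimensional ℝ E] (Q : Set (E →ₗ[ℝ] E)) (K : Set E) (C : ℝ),
  (∀ g ∈ Q, ∀ g' ∈ Q, g ∘ₗ g' ∈ Q) → (∀ g ∈ Q, ∃ g' ∈ Q, ∀ x, g' (g x) = x) →
  (∀ g ∈ Q, ∀ x, ‖g x‖ ≤ C * ‖x‖) → IsCompact K → Convex ℝ K → K.Nonempty →
  (∀ g ∈ Q, ∀ x ∈ K, g x ∈ K) → ∃ z ∈ K, ∀ g ∈ Q, g z = z

/-- **BT/TR.** The traces of the elements of an irreducible group of isometries are not bounded by
`n + 1`. -/
def S_TR : Prop := ∀ (n : ℕ), 0 < n → ∀ Q : Set (M n), (1 : M n) ∈ Q →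
  (∀ g ∈ Q, ∀ g' ∈ Q, g * g' ∈ Q) → (∀ g ∈ Q, ∃ g' ∈ Q, g * g' = 1 ∧ g' * g = 1) →
  (∀ g ∈ Q, IsU g) → Irr Q → ∃ g ∈ Q, (n : ℝ) + 1 < ‖g.trace‖

/-- **BT/EV.** An isometry with large trace is hyperbolic. -/
def S_EV : Prop := ∀ (n : ℕ) (g : M n), IsU g → (n : ℝ) + 1 < ‖g.trace‖ →
  ∃ (lam : ℂ) (u v : V n), Hyp g lam u v

/-- **BT/L2.** The leading term of the dynamics. -/
def S_L2 : Prop := ∀ (n : ℕ) (𝔯 : Submodule ℝ (M n)) (g g' : M n) (lam : ℂ) (u v : V n),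
  Hyp g lam u v → g * g' = 1 → (∀ y ∈ 𝔯, IsSk y) → (∀ y ∈ 𝔯, g * y * g' ∈ 𝔯) →
  ∀ y ∈ 𝔯, hf (y *ᵥ v) v ≠ 0 → Complex.I • R u u ∈ 𝔯

/-- **BT/L1.** The second term of the dynamics. -/
def S_L1 : Prop := ∀ (n : ℕ) (𝔯 : Submodule ℝ (M n)) (g g' : M n) (lam : ℂ) (u v : V n),
  Hyp g lam u v → g * g' = 1 → (∀ y ∈ 𝔯, IsSk y) → (∀ y ∈ 𝔯, g * y * g' ∈ 𝔯) →
  ∀ y ∈ 𝔯, hf (y *ᵥ v) v = 0 → N u (y *ᵥ v - hf (y *ᵥ v) u • v) ∈ 𝔯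

/-- **BT/X.** A long root from a short one. -/
def S_X : Prop := ∀ (n : ℕ) (𝔯 : Submodule ℝ (M n)) (u v w : V n),
  (∀ X ∈ 𝔯, ∀ Y ∈ 𝔯, X * Y - Y * X ∈ 𝔯) → hf u u = 0 → hf v v = 0 → hf u v = 1 →
  hf w u = 0 → hf w v = 0 → w ≠ 0 → N u w ∈ 𝔯 → Complex.I • R v v ∈ 𝔯 → Complex.I • R u u ∈ 𝔯

/-- **BT/A.** If two long roots are in the algebra then all are. -/
def S_A : Prop := ∀ (n : ℕ) (𝔯 : Submodule ℝ (M n)) (u v : V n), RR 𝔯 →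
  hf u u = 0 → hf v v = 0 → hf u v = 1 → Complex.I • R u u ∈ 𝔯 → Complex.I • R v v ∈ 𝔯 →
  ∀ x : V n, hf x x = 0 → Complex.I • R x x ∈ 𝔯

/-- **BT/B.** Without long roots there is a real structure. -/
def S_B : Prop := ∀ (n : ℕ) (𝔯 : Submodule ℝ (M n)) (u v : V n), RR 𝔯 →
  hf u u = 0 → hf v v = 0 → hf u v = 1 →
  (∀ y ∈ 𝔯, hf (y *ᵥ v) v = 0) → (∀ y ∈ 𝔯, hf (y *ᵥ u) u = 0) →
  (∀ y ∈ 𝔯, N u (y *ᵥ v - hf (y *ᵥ v) u • v) ∈ 𝔯) →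
  (∀ y ∈ 𝔯, N v (y *ᵥ u - hf (y *ᵥ u) v • u) ∈ 𝔯) → RealType 𝔯

/-- **BT/G.** The group generated by the exponentials. -/
def S_G : Prop := ∀ (n : ℕ) (𝔯 : Submodule ℝ (M n)), RR 𝔯 → ∃ Q : Set (M n), (1 : M n) ∈ Q ∧
  (∀ g ∈ Q, ∀ g' ∈ Q, g * g' ∈ Q) ∧ (∀ g ∈ Q, ∃ g' ∈ Q, g * g' = 1 ∧ g' * g = 1) ∧
  (∀ g ∈ Q, IsU g) ∧ Irr Q ∧ ∀ g ∈ Q, ∀ g' : M n, g * g' = 1 → ∀ y ∈ 𝔯, g * y * g' ∈ 𝔯

/-- **The theorem.** -/
def S_Main : Prop := ∀ (n : ℕ) (𝔯 : Submodule ℝ (M n)), RR 𝔯 →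
  (∀ x : V n, hf x x = 0 → Complex.I • R x x ∈ 𝔯) ∨ RealType 𝔯

end Pool.Agent.N208.BT
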