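import Pool.Agent.N208.BT.MainL
import Pool.Agent.N415.BTFP
import Pool.Agent.N55.BTTR
import Pool.Agent.N966.BTEV
import Pool.Agent.N141.BTL1
import Pool.Agent.N73.BTX
import Pool.Agent.N73.BTA
import Pool.Agent.N558.BTB
import Pool.Agent.N607.BTG

set_option autoImplicit false

/-!
# Lie algebras of isometries of the complex hyperbolic space: the theorem
-/

namespace Pool.Agent.N208.BT

/-- **The theorem** on irreducible perfect subalgebras of `u(1, n)`. -/
theorem local_main : S_Main :=
  main_of (N55.BTTR.main N415.BTFP.main) N966.BTEV.main N141.BTL2.main N141.BTL1.main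
    N73.BTX.main N73.BTA.main N558.BTB.main N607.BTG.main

end Pool.Agent.N208.BT
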