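import Pool.Agent.N999.BGSL

set_option autoImplicit false

/-!
# Separation excludes real structures and links (signature `(1, n)`), from the file of helper999
-/

open Module Matrix

noncomputable section

namespace Pool.Agent.N208.BT

open Pool.Agent.Y102 Pool.Agent.N208.AD Pool.Agent.N999.BGSL

variable {g : ℕ} {A : AbVar g} {z : Module.End ℚ A.H1}

theorem HP.toHQ {al : ℝ} (h : HP A z al) : HQ A z al where
  mem := h.mem
  cen := h.cen
  skew := h.skew
  gen := h.gen
  ne := h.ne
  ex := by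
    obtain ⟨x, hx, hxe⟩ := h.ex
    refine ⟨x, ?_, hx⟩
    have hC : ∀ (c : ℂ) (x : Fin g → ℂ), A.ext z (c • x) = c • A.ext z x := fun c x =>
      AbVar.CR_complex A.endAlg (Submodule.subset_span ⟨z, h.mem, rfl⟩) c x
    refine LinearMap.mem_ker.2 ?_
    change A.ext z (A.ext z x) + (al ^ 2) • x = 0
    rw [show A.ext z x = _ from hxe, hC, show A.ext z x = _ from hxe, smul_smul]
    have h1 : (al ^ 2) • x = (((al : ℂ)) ^ 2) • x := by
      rw [← Complex.ofReal_pow]
      rfl
    rw [h1, ← add_smul]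
    have h2 : (al : ℂ) * Complex.I * (al * Complex.I) + (al : ℂ) ^ 2 = 0 := by
      linear_combination (al : ℂ) ^ 2 * Complex.I_mul_I
    rw [h2, zero_smul]

/-- the signature `(1, n)` -/
def sg1 (n : ℕ) (i : Fin (n + 1)) : ℝ := if i = 0 then 1 else -1

theorem hs_sg1 {n : ℕ} (x y : V n) : hs (sg1 n) x y = hf x y := by
  unfold hs hf sg1
  rw [Fin.sum_univ_succ, if_pos rfl]
  have h1 : ∀ i : Fin n, (((if i.succ = 0 then 1 else -1 : ℝ) : ℝ) : ℂ) * x i.succ *
      star (y i.succ) = -(x i.succ * star (y i.succ)) := by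
    intro i
    rw [if_neg (Fin.succ_ne_zero i)]
    push_cast
    ring
  rw [Finset.sum_congr rfl fun i _ => h1 i, Finset.sum_neg_distrib]
  push_cast
  ring

theorem WD.toWN {al : ℝ} {n : ℕ} {φ : V n →ₗ[ℝ] (Fin g → ℂ)} (h : WD A z al n φ) :
    WN A z al (n + 1) (sg1 n) φ where
  isSg := fun i => by
    unfold sg1
    split_ifs
    · exact Or.inl rfl
    · exact Or.inr rfl
  pos := Nat.succ_pos n
  inj := h.inj
  mulI := h.mulI
  cx := fun x => by
    rw [h.cx]
    congr 1
    funext i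
    unfold sg1
    split_ifs
    · push_cast
      ring
    · push_cast
      ring
  form := fun x y => by rw [hs_sg1]; exact h.form x y
  stab := h.stab
  simple := h.simple
  gen := h.gen

theorem s_S1 : S_S1 := by
  intro g A z Sg hB al hal n φ hW 𝔮 hq hR
  have hp := hB.hp al hal
  obtain ⟨C, hC, hR⟩ := hR
  have hC0 : C ≠ 0 := by
    rintro rfl
    rw [Matrix.det_zero] at hC
    exact not_isUnit_zero hC
  have hz := hp.toHQ
  have hW' := hW.toWN
  obtain ⟨q, X, hX, e, hne⟩ := hB.sep (D1 𝔮) (D1_CB hq) (fun X hX => gen_aux hz hq hX) (-al) al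
    (Or.inr (by rw [neg_neg]; exact hal)) (Or.inl hal)
    (fun e => hp.ne (by linarith))
  apply hne
  have h1 := key (starRingEnd ℂ) hz hz hW' hW' hq hC0 ?_ hX e
  · rw [map_mul, Complex.conj_ofReal, Complex.conj_I] at h1
    have e1 : ((-al : ℝ) : ℂ) * Complex.I = (al : ℂ) * -Complex.I := by
      push_cast
      ring
    rw [e1]
    exact h1
  · rintro ⟨m, m'⟩ ⟨y, hy, h1, h2⟩
    have h3 : m' = m := by
      apply Matrix.ext_of_mulVec_single
      intro i
      apply hW.inj
      exact (h2 _).symm.trans (h1 _)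
    have h4 := hR m ⟨y, hy, h1⟩
    change m' * C = C * m.map _
    rw [h3, h4]
    rfl

theorem s_S2 : S_S2 := by
  intro g A z Sg hB al hal be hbe hne n n' φ φ' hW hW' 𝔮 h S hS0
  have hz := (hB.hp al hal).toHQ
  have hz' := (hB.hp be hbe).toHQ
  have hWN := hW.toWN
  have hWN' := hW'.toWN
  refine ⟨fun hS => ?_, fun hS => ?_⟩
  · obtain ⟨q, X, hX, e, hq⟩ := hB.sep (D1 𝔮) (D1_CB h) (fun X hX => gen_aux hz h hX) al be
      (Or.inl hal) (Or.inl hbe) hne
    apply hq
    refine key (RingHom.id ℂ) hz hz' hWN hWN' h hS0 ?_ hX e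
    intro p hp
    rw [hS p hp]
    congr 1
  · obtain ⟨q, X, hX, e, hq⟩ := hB.sep (D1 𝔮) (D1_CB h) (fun X hX => gen_aux hz h hX) (-al) be
      (Or.inr (by rw [neg_neg]; exact hal)) (Or.inl hbe)
      (fun e => hB.disj be hbe (by rw [← e, neg_neg]; exact hal))
    apply hq
    have h1 := key (starRingEnd ℂ) hz hz' hWN hWN' h hS0 hS hX e
    rw [map_mul, Complex.conj_ofReal, Complex.conj_I] at h1
    have e1 : ((-al : ℝ) : ℂ) * Complex.I = (al : ℂ) * -Complex.I := by
      push_cast
      ring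
    rw [e1]
    exact h1

end Pool.Agent.N208.BT
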