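import Pool.Agent.N208.BT.RP
import Pool.Agent.N208.BT.S12
import Pool.Agent.N208.BT.Local
import Pool.Agent.N136.BTPA
import Pool.Agent.N521.BTP1
import Pool.Agent.N227.BTP2
import Pool.Agent.N803.BTPI
import Pool.Agent.N400.BTSU
import Pool.Agent.N402.BTWB2
import Pool.Agent.N163.BTRR2
import Pool.Agent.N835.BTSJ

set_option autoImplicit false

/-!
# Abelian varieties with unitary parts of signature `(1, n)`: assembly
-/

open Module Matrix

namespace Pool.Agent.N208.BT

open Pool.Agent.Y102

theorem pa_main : S_PA :=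
  N136.BTPA.main N400.BTSU.main (N803.BTPI.main N400.BTSU.main) (N521.BTP1.main N400.BTSU.main)
    (N227.BTP2.main N400.BTSU.main)

theorem sj_main : S_SJ :=
  N835.BTSJ.main local_main N400.BTSU.main pa_main N773.BTWA2.main N402.BTWB2.main
    N163.BTRR2.main s_S1 s_S2

theorem rpart {g : ℕ} {A : AbVar g} {z : Module.End ℚ A.H1} {Sg : Finset ℝ} (h : HB A z Sg) :
    RPart A (US A z Sg) := rpart_of sj_main h

end Pool.Agent.N208.BT
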