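import Pool.Agent.N208.BT.Stm4

set_option autoImplicit false

/-!
# Arbitrary signatures: statements
-/

open Module Matrix

noncomputable section

namespace Pool.Agent.N208.BT

open Pool.Agent.Y102 Pool.Agent.W516.DR Pool.Agent.H204R3.GP Pool.Agent.W516.KC
  Pool.Agent.H204R3.SP Pool.Agent.TH119.MX Pool.Agent.R917 Pool.Agent.N208.AM Pool.Agent.N208.AD

/-! ### Matrices -/

/-- vectors -/
abbrev VN (N : ℕ) : Type := Fin N → ℂ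

/-- matrices -/
abbrev MN (N : ℕ) : Type := Matrix (Fin N) (Fin N) ℂ

/-- signatures -/
def IsSg {N : ℕ} (sg : Fin N → ℝ) : Prop := ∀ i, sg i = 1 ∨ sg i = -1

/-- indefinite signatures -/
def Mixed {N : ℕ} (sg : Fin N → ℝ) : Prop := (∃ i, sg i = 1) ∧ ∃ j, sg j = -1

/-- the hermitian form with the signature `sg` -/
def hs {N : ℕ} (sg : Fin N → ℝ) (x y : VN N) : ℂ := ∑ i, (sg i : ℂ) * x i * star (y i)

/-- the operator `x ↦ hs sg x b • a` -/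
def Rs {N : ℕ} (sg : Fin N → ℝ) (a b : VN N) : MN N :=
  Matrix.of fun i j => a i * hs sg (Pi.single j 1) b

/-- the operator `x ↦ hs x u • w - hs x w • u` -/
def Ns {N : ℕ} (sg : Fin N → ℝ) (u w : VN N) : MN N := Rs sg w u - Rs sg u w

/-- skew-hermitian operators -/
def IsSks {N : ℕ} (sg : Fin N → ℝ) (X : MN N) : Prop :=
  ∀ x y : VN N, hs sg (X *ᵥ x) y + hs sg x (X *ᵥ y) = 0

/-- irreducible sets of operators -/
def Irrs {N : ℕ} (S : Set (MN N)) : Prop :=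
  ∀ U : Submodule ℂ (VN N), (∀ X ∈ S, ∀ u ∈ U, X *ᵥ u ∈ U) → U = ⊥ ∨ U = ⊤

/-- a perfect irreducible real Lie algebra of skew-hermitian operators -/
structure RRs {N : ℕ} (sg : Fin N → ℝ) (𝔯 : Submodule ℝ (MN N)) : Prop where
  sk : ∀ X ∈ 𝔯, IsSks sg X
  br : ∀ X ∈ 𝔯, ∀ Y ∈ 𝔯, X * Y - Y * X ∈ 𝔯
  perf : 𝔯 ≤ Submodule.span ℝ {Z | ∃ X ∈ 𝔯, ∃ Y ∈ 𝔯, Z = X * Y - Y * X}
  irr : Irrs (𝔯 : Set (MN N))

/-- `𝔯` contains all long roots -/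
def Big {N : ℕ} (sg : Fin N → ℝ) (𝔯 : Submodule ℝ (MN N)) : Prop :=
  ∀ x : VN N, hs sg x x = 0 → Complex.I • Rs sg x x ∈ 𝔯

/-- **BG/SU.** -/
def G_SU : Prop := ∀ (N : ℕ) (sg : Fin N → ℝ), IsSg sg → Mixed sg → ∀ (X : MN N),
  IsSks sg X → X.trace = 0 →
  X ∈ Submodule.span ℝ {Y : MN N | ∃ x : VN N, hs sg x x = 0 ∧ Y = Complex.I • Rs sg x x}

/-- **BG/PI.** -/
def G_PI : Prop := ∀ (N : ℕ) (sg : Fin N → ℝ), IsSg sg → Mixed sg → ∀ (𝔫 : Submodule ℝ (MN N)),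
  (∀ X ∈ 𝔫, IsSks sg X ∧ X.trace = 0) →
  (∀ x : VN N, hs sg x x = 0 → ∀ Y ∈ 𝔫,
    (Complex.I • Rs sg x x) * Y - Y * (Complex.I • Rs sg x x) ∈ 𝔫) →
  (∃ X ∈ 𝔫, X ≠ 0) → Big sg 𝔫

/-- a Lie algebra of pairs of skew-hermitian operators of trace zero with large projections -/
structure PRs {N N' : ℕ} (sg : Fin N → ℝ) (sg' : Fin N' → ℝ) (𝔟 : Submodule ℝ (MN N × MN N')) :
    Prop where
  br : ∀ p ∈ 𝔟, ∀ q ∈ 𝔟, p * q - q * p ∈ 𝔟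
  sk1 : ∀ p ∈ 𝔟, IsSks sg p.1
  sk2 : ∀ p ∈ 𝔟, IsSks sg' p.2
  tr1 : ∀ p ∈ 𝔟, p.1.trace = 0
  tr2 : ∀ p ∈ 𝔟, p.2.trace = 0
  all1 : ∀ x : VN N, hs sg x x = 0 → ∃ Y, (Complex.I • Rs sg x x, Y) ∈ 𝔟
  all2 : ∀ y : VN N', hs sg' y y = 0 → ∃ X, (X, Complex.I • Rs sg' y y) ∈ 𝔟

/-- **BG/P1.** -/
def G_P1 : Prop := ∀ (N N' : ℕ) (sg : Fin N → ℝ) (sg' : Fin N' → ℝ), IsSg sg → Mixed sg →
  IsSg sg' → Mixed sg' → ∀ 𝔟 : Submodule ℝ (MN N × MN N'), PRs sg sg' 𝔟 →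
  (∀ X : MN N, (X, 0) ∈ 𝔟 → X = 0) → (∀ Y : MN N', (0, Y) ∈ 𝔟 → Y = 0) →
  ∀ (u v : VN N), hs sg u u = 0 → hs sg v v = 0 → hs sg u v = 1 →
  ∀ Y : MN N', (Complex.I • Rs sg u u, Y) ∈ 𝔟 →
  ∃ (s : ℝ) (u' : VN N'), (s = 1 ∨ s = -1) ∧ u' ≠ 0 ∧ hs sg' u' u' = 0 ∧
    Y = ((s : ℂ) * Complex.I) • Rs sg' u' u'

/-- the two components are intertwined by a linear or antilinear map -/
def Linked {N N' : ℕ} (𝔟 : Submodule ℝ (MN N × MN N')) : Prop :=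
  (∃ S : Matrix (Fin N') (Fin N) ℂ, S ≠ 0 ∧ ∀ p ∈ 𝔟, p.2 * S = S * p.1) ∨
    ∃ S : Matrix (Fin N') (Fin N) ℂ, S ≠ 0 ∧ ∀ p ∈ 𝔟, p.2 * S = S * p.1.map star

/-- **BG/P2.** -/
def G_P2 : Prop := ∀ (N N' : ℕ) (sg : Fin N → ℝ) (sg' : Fin N' → ℝ), IsSg sg → Mixed sg →
  IsSg sg' → Mixed sg' → ∀ 𝔟 : Submodule ℝ (MN N × MN N'), PRs sg sg' 𝔟 →
  (∀ X : MN N, (X, 0) ∈ 𝔟 → X = 0) → (∀ Y : MN N', (0, Y) ∈ 𝔟 → Y = 0) →
  ∀ (u v : VN N) (u' v' : VN N'), hs sg u u = 0 → hs sg v v = 0 → hs sg u v = 1 →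
  hs sg' u' u' = 0 → hs sg' v' v' = 0 → hs sg' u' v' = 1 →
  (Complex.I • Rs sg u u, Complex.I • Rs sg' u' u') ∈ 𝔟 →
  (Complex.I • Rs sg v v, Complex.I • Rs sg' v' v') ∈ 𝔟 → Linked 𝔟

/-- **BG/PA.** -/
def G_PA : Prop := ∀ (N N' : ℕ) (sg : Fin N → ℝ) (sg' : Fin N' → ℝ), IsSg sg → Mixed sg →
  IsSg sg' → Mixed sg' → ∀ 𝔟 : Submodule ℝ (MN N × MN N'), PRs sg sg' 𝔟 →
  (∀ x : VN N, hs sg x x = 0 → (Complex.I • Rs sg x x, (0 : MN N')) ∈ 𝔟) ∨ Linked 𝔟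

/-! ### Abelian varieties -/

variable {g : ℕ} (A : AbVar g)

/-- hypotheses for one eigenvalue `i al` of `z`, without a condition on the signature -/
structure HQ (z : Module.End ℚ A.H1) (al : ℝ) : Prop where
  mem : z ∈ A.EA
  cen : ∀ P ∈ A.EA, z * P = P * z
  skew : IsSkew A.om z
  gen : ∀ P ∈ A.EA, (∀ Q ∈ A.EA, P * Q = Q * P) →
    ∃ q : Polynomial ℚ, P * z = Polynomial.aeval z q * z
  ne : al ≠ 0
  ex : ∃ x ∈ V0 A z al, x ≠ 0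

/-- a simple submodule `W` of `V₀` -/
structure WS' (z : Module.End ℚ A.H1) (al : ℝ) (W : Submodule ℝ (Fin g → ℂ)) : Prop where
  le : W ≤ V0 A z al
  stab : ∀ X ∈ A.NA, ∀ x ∈ W, A.ext X x ∈ W
  stabz : ∀ x ∈ W, A.ext z x ∈ W
  simple : ∀ U : Submodule ℝ (Fin g → ℂ), U ≤ W → (∀ X ∈ A.NA, ∀ x ∈ U, A.ext X x ∈ U) →
    (∀ x ∈ U, A.ext z x ∈ U) → U = ⊥ ∨ U = W
  ne : W ≠ ⊥
  gen : ∀ y : Module.End ℝ (Fin g → ℂ), (∀ P ∈ A.EA, y * A.ext P = A.ext P * y) →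
    (∀ x ∈ W, y x = 0) → ∀ x ∈ V0 A z al, y x = 0

/-- a simple submodule `W` of `V₀` with a basis -/
structure WN (z : Module.End ℚ A.H1) (al : ℝ) (N : ℕ) (sg : Fin N → ℝ)
    (φ : VN N →ₗ[ℝ] (Fin g → ℂ)) : Prop where
  isSg : IsSg sg
  pos : 0 < N
  inj : Function.Injective φ
  mulI : ∀ x, φ (Complex.I • x) = al⁻¹ • A.ext z (φ x)
  cx : ∀ x, Complex.I • φ x = φ (fun i => (sg i : ℂ) * (Complex.I * x i))
  form : ∀ x y, (hs sg x y).im = -A.E (φ x) (φ y)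
  stab : ∀ X ∈ A.NA, ∀ x, ∃ y, A.ext X (φ x) = φ y
  simple : ∀ U : Submodule ℂ (VN N), (∀ X ∈ A.NA, ∀ x ∈ U, ∀ y, A.ext X (φ x) = φ y → y ∈ U) →
    U = ⊥ ∨ U = ⊤
  gen : ∀ y : Module.End ℝ (Fin g → ℂ), (∀ P ∈ A.EA, y * A.ext P = A.ext P * y) →
    (∀ x, y (φ x) = 0) → ∀ x ∈ V0 A z al, y x = 0

/-- the matrices of the elements of the real span of a Lie algebra on `W` -/
def rN (S : Submodule ℚ (Module.End ℚ A.H1)) {N : ℕ} (φ : VN N →ₗ[ℝ] (Fin g → ℂ)) :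
    Submodule ℝ (MN N) where
  carrier := {m | ∃ y ∈ spE A (S : Set (Module.End ℚ A.H1)), ∀ x, y (φ x) = φ (m *ᵥ x)}
  zero_mem' := ⟨0, Submodule.zero_mem _, fun x => by
    rw [LinearMap.zero_apply, Matrix.zero_mulVec, map_zero]⟩
  add_mem' := by
    rintro a b ⟨y, hy, h⟩ ⟨y', hy', h'⟩
    exact ⟨y + y', Submodule.add_mem _ hy hy', fun x => by
      rw [LinearMap.add_apply, Matrix.add_mulVec, map_add, h, h']⟩
  smul_mem' := by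
    rintro c a ⟨y, hy, h⟩
    exact ⟨c • y, Submodule.smul_mem _ c hy, fun x => by
      rw [LinearMap.smul_apply, Matrix.smul_mulVec, map_smul, h]⟩

/-- the pairs of matrices of the elements of the real span of a Lie algebra on two submodules -/
def rN2 (S : Submodule ℚ (Module.End ℚ A.H1)) {N N' : ℕ} (φ : VN N →ₗ[ℝ] (Fin g → ℂ))
    (φ' : VN N' →ₗ[ℝ] (Fin g → ℂ)) : Submodule ℝ (MN N × MN N') where
  carrier := {p | ∃ y ∈ spE A (S : Set (Module.End ℚ A.H1)), (∀ x, y (φ x) = φ (p.1 *ᵥ x)) ∧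
    ∀ x, y (φ' x) = φ' (p.2 *ᵥ x)}
  zero_mem' := ⟨0, Submodule.zero_mem _, fun x => by
    rw [LinearMap.zero_apply, Prod.fst_zero, Matrix.zero_mulVec, map_zero], fun x => by
    rw [LinearMap.zero_apply, Prod.snd_zero, Matrix.zero_mulVec, map_zero]⟩
  add_mem' := by
    rintro a b ⟨y, hy, h1, h2⟩ ⟨y', hy', h1', h2'⟩
    exact ⟨y + y', Submodule.add_mem _ hy hy', fun x => by
      rw [LinearMap.add_apply, Prod.fst_add, Matrix.add_mulVec, map_add, h1, h1'], fun x => by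
      rw [LinearMap.add_apply, Prod.snd_add, Matrix.add_mulVec, map_add, h2, h2']⟩
  smul_mem' := by
    rintro c a ⟨y, hy, h1, h2⟩
    exact ⟨c • y, Submodule.smul_mem _ c hy, fun x => by
      rw [LinearMap.smul_apply, Prod.smul_fst, Matrix.smul_mulVec, map_smul, h1], fun x => by
      rw [LinearMap.smul_apply, Prod.smul_snd, Matrix.smul_mulVec, map_smul, h2]⟩

/-- **BG/WA.** Existence of a simple submodule. -/
def G_WA : Prop := ∀ (g : ℕ) (A : AbVar g) (z : Module.End ℚ A.H1) (al : ℝ), HQ A z al →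
  ∃ W : Submodule ℝ (Fin g → ℂ), WS' A z al W

/-- **BG/WB.** Coordinates on the simple submodule. -/
def G_WB : Prop := ∀ (g : ℕ) (A : AbVar g) (z : Module.End ℚ A.H1) (al : ℝ), HQ A z al →
  ∀ W : Submodule ℝ (Fin g → ℂ), WS' A z al W →
  ∃ (N : ℕ) (sg : Fin N → ℝ) (φ : VN N →ₗ[ℝ] (Fin g → ℂ)), WN A z al N sg φ

/-- **BG/RR.** The Lie algebra on `W`. -/
def G_RR : Prop := ∀ (g : ℕ) (A : AbVar g) (z : Module.End ℚ A.H1) (al : ℝ), HQ A z al →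
  ∀ (N : ℕ) (sg : Fin N → ℝ) (φ : VN N →ₗ[ℝ] (Fin g → ℂ)), WN A z al N sg φ →
  ∀ 𝔮 : Submodule ℚ (Module.End ℚ A.H1), A.Full 𝔮 → RRs sg (rN A (der 𝔮) φ)

/-- Every subalgebra `D₁` of the commutant of the endomorphism algebra, which generates it together
with `z` (on the image of `z`), contains elements of `ℚ[z]` which separate the eigenvalues `i a` and
`i b`, `± a ∈ Sg`, `± b ∈ Sg`, `a ≠ ± b`. -/
def SepG (z : Module.End ℚ A.H1) (Sg : Finset ℝ) : Prop :=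
  ∀ D₁ : Subalgebra ℚ (Module.End ℚ A.H1), (∀ X ∈ D₁, X ∈ CB A) →
    (∀ X ∈ CB A, ∃ X' ∈ Algebra.adjoin ℚ ((D₁ : Set (Module.End ℚ A.H1)) ∪ {z}),
      X * z = X' * z) →
    ∀ a b : ℝ, (a ∈ Sg ∨ -a ∈ Sg) → (b ∈ Sg ∨ -b ∈ Sg) → a ≠ b → a ≠ -b →
      ∃ (q : Polynomial ℚ), ∃ X ∈ D₁, X * z = Polynomial.aeval z q * z ∧
        Polynomial.aeval ((a : ℂ) * Complex.I) q ≠ Polynomial.aeval ((b : ℂ) * Complex.I) q

/-- the hypotheses for a finite set of eigenvalues: separation, and all full subalgebras contain the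
long roots at the indefinite places -/
structure HG (z : Module.End ℚ A.H1) (Sg : Finset ℝ) : Prop where
  hq : ∀ al ∈ Sg, HQ A z al
  disj : ∀ al ∈ Sg, -al ∉ Sg
  sep : SepG A z Sg
  big : ∀ al ∈ Sg, ∀ (N : ℕ) (sg : Fin N → ℝ) (φ : VN N →ₗ[ℝ] (Fin g → ℂ)), WN A z al N sg φ →
    Mixed sg ∧ ∀ 𝔮 : Submodule ℚ (Module.End ℚ A.H1), A.Full 𝔮 → Big sg (rN A (der 𝔮) φ)

/-- **BG/SL.** There are no links. -/
def G_SL : Prop := ∀ (g : ℕ) (A : AbVar g) (z : Module.End ℚ A.H1) (Sg : Finset ℝ), HG A z Sg →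
  ∀ al ∈ Sg, ∀ be ∈ Sg, al ≠ be → ∀ (N N' : ℕ) (sg : Fin N → ℝ) (sg' : Fin N' → ℝ)
  (φ : VN N →ₗ[ℝ] (Fin g → ℂ)) (φ' : VN N' →ₗ[ℝ] (Fin g → ℂ)),
  WN A z al N sg φ → WN A z be N' sg' φ' →
  ∀ 𝔮 : Submodule ℚ (Module.End ℚ A.H1), A.Full 𝔮 → ¬ Linked (rN2 A (der 𝔮) φ φ')

/-- **BG/SJ.** All full subalgebras have the same derived algebra on the parts. -/
def G_SJ : Prop := ∀ (g : ℕ) (A : AbVar g) (z : Module.End ℚ A.H1) (Sg : Finset ℝ), HG A z Sg →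
  ∀ 𝔮 : Submodule ℚ (Module.End ℚ A.H1), A.Full 𝔮 →
  ∀ X ∈ spE A (der A.NA : Set (Module.End ℚ A.H1)),
    ∃ y ∈ spE A (der 𝔮 : Set (Module.End ℚ A.H1)), ∀ al ∈ Sg, ∀ x ∈ V0 A z al, X x = y x

/-- the part of the commutant given by `z` is a division algebra of dimension `p ^ 2` over the field
`ℚ[z]` (on the image of `z`), `p` a prime number -/
structure PD (z : Module.End ℚ A.H1) (p : ℕ) : Prop where
  prime : p.Prime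
  div : ∀ X ∈ CB A, X * z ≠ 0 → ∀ v, X (z v) = 0 → z v = 0
  rank : finrank ℚ ((CB A).map (LinearMap.mulRight ℚ z)) =
    p ^ 2 * finrank ℚ ((Algebra.adjoin ℚ {z}).toSubmodule.map (LinearMap.mulRight ℚ z))

/-- **BG/PD.** Prime degree. -/
def G_PD : Prop := ∀ (g : ℕ) (A : AbVar g) (z : Module.End ℚ A.H1) (al : ℝ) (p : ℕ), HQ A z al →
  PD A z p → ∀ (N : ℕ) (sg : Fin N → ℝ) (φ : VN N →ₗ[ℝ] (Fin g → ℂ)), WN A z al N sg φ →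
  Mixed sg → ∀ 𝔮 : Submodule ℚ (Module.End ℚ A.H1), A.Full 𝔮 → Big sg (rN A (der 𝔮) φ)

end Pool.Agent.N208.BT
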