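import Pool.Agent.N208.BT.RP
import Pool.Agent.N749.BGSU
import Pool.Agent.N749.BGPI
import Pool.Agent.N49.BGP1
import Pool.Agent.N507.BGP2
import Pool.Agent.N27.BGPA
import Pool.Agent.N755.BGWA
import Pool.Agent.N755.BGRR
import Pool.Agent.N455.BGWB
import Pool.Agent.N999.BGSL
import Pool.Agent.N441.BGSJ

set_option autoImplicit false

/-!
# Abelian varieties with unitary parts of arbitrary signature: assembly
-/

open Module Matrix

namespace Pool.Agent.N208.BT

open Pool.Agent.Y102

theorem gpa_main : G_PA :=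
  N27.BGPA.main N749.BGSU.main (N749.BGPI.main N749.BGSU.main) (N49.BGP1.main N749.BGSU.main)
    (N507.BGP2.main N749.BGSU.main)

theorem gsj_main : G_SJ :=
  N441.BGSJ.main N749.BGSU.main gpa_main N755.BGWA.main N455.BGWB.main N755.BGRR.main
    N999.BGSL.main

theorem rpartG {g : ℕ} {A : AbVar g} {z : Module.End ℚ A.H1} {Sg : Finset ℝ} (h : HG A z Sg) :
    RPart A (US A z Sg) := rpart_ofG gsj_main h

end Pool.Agent.N208.BT
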