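import Pool.Agent.N208.AD.Dec
import Pool.Agent.N113.BT.RL

set_option autoImplicit false
set_option linter.unusedSectionVars false

/-!
# Motives whose Mumford-Tate domain is given by a real subspace on which all full subalgebras have
the same derived algebra
-/

open Module Function TensorProduct Matrix

noncomputable section

namespace Pool.Agent.N208.BT

open Pool.Agent.Y102 Pool.Agent.W516.DR Pool.Agent.H204R3.GP Pool.Agent.W516.KC
  Pool.Agent.H204R3.SP Pool.Agent.TH119.MX Pool.Agent.R917 Pool.Agent.N208.AM Pool.Agent.N208.AD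

variable {g : ℕ} {A : AbVar g} {s n : ℕ} {r : Fin s → ℕ} {B : Fin n → Ten A r} {w : Fin s → ℤ}
  {P : Matrix (Fin n) (Fin n) ℂ} {H : Set (Matrix (Fin n) (Fin n) ℂ)}
  {Wt : Matrix (Fin n) (Fin n) ℚ} {N : Matrix (Fin n) (Fin n) ℝ}
  {U : Set (Fin g → ℂ)}

/-- The pairs of an element of the real span of a Lie algebra and its matrix on the motive. -/
def pR (B : Fin n → Ten A r) (T : Submodule ℚ (Module.End ℚ A.H1)) :
    Submodule ℝ (Module.End ℝ (Fin g → ℂ) × Matrix (Fin n) (Fin n) ℝ) :=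
  Submodule.span ℝ {p | ∃ X ∈ T, ∃ M, Rel B X M ∧ p = (A.ext X, rq M)}

theorem pR_mono {T T' : Submodule ℚ (Module.End ℚ A.H1)} (h : T ≤ T') : pR B T ≤ pR B T' :=
  Submodule.span_mono fun _ ⟨X, hX, M, hM, e⟩ => ⟨X, h hX, M, hM, e⟩

theorem pR_snd {T : Submodule ℚ (Module.End ℚ A.H1)}
    {p : Module.End ℝ (Fin g → ℂ) × Matrix (Fin n) (Fin n) ℝ} (hp : p ∈ pR B T) :
    p.2 ∈ spR B (T : Set (Module.End ℚ A.H1)) := by
  induction hp using Submodule.span_induction with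
  | mem p hp =>
    obtain ⟨X, hX, M, hM, rfl⟩ := hp
    exact mem_spR (S := (T : Set (Module.End ℚ A.H1))) hX hM
  | zero => exact Submodule.zero_mem _
  | add a b _ _ ha hb => exact Submodule.add_mem _ ha hb
  | smul c a _ ha => exact Submodule.smul_mem _ c ha

theorem exists_pR (h : Mot w B P) {T : Submodule ℚ (Module.End ℚ A.H1)} (hT : T ≤ A.NA)
    {Y : Module.End ℝ (Fin g → ℂ)} (hY : Y ∈ spE A (T : Set (Module.End ℚ A.H1))) :
    ∃ NY, (Y, NY) ∈ pR B T := by
  induction hY using Submodule.span_induction with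
  | mem Y hY =>
    obtain ⟨X, hX, rfl⟩ := hY
    obtain ⟨M, hM⟩ := h.st X (hT hX)
    exact ⟨rq M, Submodule.subset_span ⟨X, hX, M, hM, rfl⟩⟩
  | zero => exact ⟨0, Submodule.zero_mem _⟩
  | add a b _ _ ha hb =>
    obtain ⟨M, h1⟩ := ha
    obtain ⟨M', h1'⟩ := hb
    exact ⟨M + M', Submodule.add_mem _ h1 h1'⟩
  | smul c a _ ha =>
    obtain ⟨M, h1⟩ := ha
    exact ⟨c • M, Submodule.smul_mem _ c h1⟩

theorem pR_br (h : Mot w B P) {X : Module.End ℚ A.H1} (hX : X ∈ der A.NA)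
    {M : Matrix (Fin n) (Fin n) ℚ} (hM : Rel B X M)
    {p : Module.End ℝ (Fin g → ℂ) × Matrix (Fin n) (Fin n) ℝ} (hp : p ∈ pR B (der A.NA)) :
    (p.1 * A.ext X - A.ext X * p.1, rq M * p.2 - p.2 * rq M) ∈ pR B (der A.NA) := by
  induction hp using Submodule.span_induction with
  | mem p hp =>
    obtain ⟨Y, hY, M', hM', rfl⟩ := hp
    refine Submodule.subset_span ⟨Y * X - X * Y, ?_, M * M' - M' * M, hM'.br hM, ?_⟩
    · exact Submodule.subset_span ⟨Y, der_NA_le hY, X, der_NA_le hX, rfl⟩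
    · rw [ext_sub, ext_mul, ext_mul, rq_sub, rq_mul, rq_mul]
  | zero =>
    have h1 : ((0 : Module.End ℝ (Fin g → ℂ) × Matrix (Fin n) (Fin n) ℝ).1 * A.ext X -
        A.ext X * (0 : Module.End ℝ (Fin g → ℂ) × Matrix (Fin n) (Fin n) ℝ).1,
        rq M * (0 : Module.End ℝ (Fin g → ℂ) × Matrix (Fin n) (Fin n) ℝ).2 -
        (0 : Module.End ℝ (Fin g → ℂ) × Matrix (Fin n) (Fin n) ℝ).2 * rq M) = 0 := by
      refine Prod.ext ?_ ?_
      · change (0 : Module.End ℝ (Fin g → ℂ)) * A.ext X - A.ext X * 0 = 0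
        rw [zero_mul, mul_zero, sub_zero]
      · change rq M * (0 : Matrix (Fin n) (Fin n) ℝ) - 0 * rq M = 0
        rw [zero_mul, mul_zero, sub_zero]
    rw [h1]
    exact Submodule.zero_mem _
  | add a b _ _ ha hb =>
    have h1 := Submodule.add_mem _ ha hb
    convert h1 using 1
    refine Prod.ext ?_ ?_
    · change (a.1 + b.1) * A.ext X - A.ext X * (a.1 + b.1) =
        (a.1 * A.ext X - A.ext X * a.1) + (b.1 * A.ext X - A.ext X * b.1)
      rw [add_mul, mul_add]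
      abel
    · change rq M * (a.2 + b.2) - (a.2 + b.2) * rq M =
        (rq M * a.2 - a.2 * rq M) + (rq M * b.2 - b.2 * rq M)
      rw [add_mul, mul_add]
      abel
  | smul c a _ ha =>
    have h1 := Submodule.smul_mem _ c ha
    convert h1 using 1
    refine Prod.ext ?_ ?_
    · change (c • a.1) * A.ext X - A.ext X * (c • a.1) = c • (a.1 * A.ext X - A.ext X * a.1)
      rw [mul_smul_comm, smul_mul_assoc, smul_sub]
    · change rq M * (c • a.2) - (c • a.2) * rq M = c • (rq M * a.2 - a.2 * rq M)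
      rw [mul_smul_comm, smul_mul_assoc, smul_sub]

/-- The matrices of the elements which are zero on `U`. -/
def nU (B : Fin n → Ten A r) (U : Set (Fin g → ℂ)) : Submodule ℝ (Matrix (Fin n) (Fin n) ℝ) where
  carrier := {z | ∃ p ∈ pR B (der A.NA), (∀ u ∈ U, p.1 u = 0) ∧ z = p.2}
  zero_mem' := ⟨0, Submodule.zero_mem _, fun u _ => rfl, rfl⟩
  add_mem' := by
    rintro _ _ ⟨p, hp, h1, rfl⟩ ⟨q, hq, h2, rfl⟩
    exact ⟨p + q, Submodule.add_mem _ hp hq, fun u hu => by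
      rw [Prod.fst_add, LinearMap.add_apply, h1 u hu, h2 u hu, add_zero], rfl⟩
  smul_mem' := by
    rintro c _ ⟨p, hp, h1, rfl⟩
    exact ⟨c • p, Submodule.smul_mem _ _ hp, fun u hu => by
      rw [Prod.smul_fst, LinearMap.smul_apply, h1 u hu, smul_zero], rfl⟩

/-- A set of vectors, stable under the Lie algebra, on which the derived algebras of all full
subalgebras have the same real span. -/
structure RPart (A : AbVar g) (U : Set (Fin g → ℂ)) : Prop where
  stab : ∀ X ∈ A.NA, ∀ u ∈ U, A.ext X u ∈ U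
  der : ∀ 𝔮 : Submodule ℚ (Module.End ℚ A.H1), A.Full 𝔮 →
    ∀ X ∈ spE A (der A.NA : Set (Module.End ℚ A.H1)),
      ∃ y ∈ spE A (der 𝔮 : Set (Module.End ℚ A.H1)), ∀ u ∈ U, X u = y u

/-- The Mumford-Tate domain of the motive is given by `U`. -/
def DomU (U : Set (Fin g → ℂ)) (B : Fin n → Ten A r) (N : Matrix (Fin n) (Fin n) ℝ) : Prop :=
  ∀ p ∈ pR B (der A.NA), (∀ u ∈ U, p.1 u = 0) → p.2 * N = N * p.2

/-- **The complex structure is in the Lie algebra of the group**, up to the centre. -/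
theorem N_memU (h : Mot w B P) (hW : WRel w B Wt) (hH : PtM P H) (hr : RPart A U)
    (hN : RelR B AbVar.JJ N) {Nc Nd : Matrix (Fin n) (Fin n) ℝ}
    (hNc : Nc ∈ spR B (cenA A : Set (Module.End ℚ A.H1)))
    (hNd : Nd ∈ spR B (der A.NA : Set (Module.End ℚ A.H1))) (hNe : N = Nc + Nd)
    (hα : DomU U B N) :
    Nd ∈ spR B (dq B Wt H : Set (Module.End ℚ A.H1)) := by
  have hq := qM_full h hW hH
  have hdN : dq B Wt H ≤ A.NA := fun Z hZ => (der_mem h hW hZ).1
  have hdd : dq B Wt H ≤ der A.NA := by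
    unfold dq der
    exact Submodule.span_mono fun _ ⟨X, hX, Y, hY, e⟩ => ⟨X, hq.le hX, Y, hq.le hY, e⟩
  have hdb : ∀ X ∈ dq B Wt H, ∀ Y ∈ dq B Wt H, X * Y - Y * X ∈ dq B Wt H := fun X hX Y hY =>
    Submodule.subset_span ⟨X, hq.der_le hX, Y, hq.der_le hY, rfl⟩
  have hle : spR B (der A.NA : Set (Module.End ℚ A.H1)) ≤
      spR B (A.NA : Set (Module.End ℚ A.H1)) := spR_mono der_NA_le
  have hnm : nU B U ≤ spR B (der A.NA : Set (Module.End ℚ A.H1)) := by
    rintro _ ⟨p, hp, -, rfl⟩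
    exact pR_snd hp
  refine N113.BT.mem_of_sup (dat h hN hNc hNd hNe) (spR_mono hdd) (spR_br hdb) hnm ?_ ?_ ?_
  · rintro x hx z ⟨p, hp, h1, rfl⟩
    induction hx using Submodule.span_induction with
    | mem x hx =>
      obtain ⟨X, hX, M, hM, rfl⟩ := hx
      refine ⟨_, pR_br h hX hM hp, fun u hu => ?_, rfl⟩
      rw [LinearMap.sub_apply, Module.End.mul_apply, Module.End.mul_apply, h1 u hu,
        h1 _ (hr.stab X (der_NA_le hX) u hu), map_zero, sub_zero]
    | zero => rw [LinearMap.map_zero₂]; exact Submodule.zero_mem _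
    | add a b _ _ ha hb => rw [LinearMap.map_add₂]; exact Submodule.add_mem _ ha hb
    | smul c a _ ha => rw [LinearMap.map_smul₂]; exact Submodule.smul_mem _ _ ha
  · intro z hz
    have h2 : RLie.br N z = 0 := by
      obtain ⟨p, hp, h1, rfl⟩ := hz
      rw [RLie.br_apply, hα p hp h1, sub_self]
    rw [hNe, LinearMap.map_add₂, cenA_br h hNc (hle (hnm hz)), zero_add] at h2
    exact h2
  · rw [spR, Submodule.span_le]
    rintro _ ⟨X, hX, M, hM, rfl⟩
    obtain ⟨y, hy, h1⟩ := hr.der _ hq _ (mem_spE (S := (der A.NA : Set (Module.End ℚ A.H1))) hX)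
    obtain ⟨y', hy'⟩ := exists_pR h hdN hy
    have h2 : ((A.ext X, rq M) : Module.End ℝ (Fin g → ℂ) × Matrix (Fin n) (Fin n) ℝ) ∈
        pR B (der A.NA) := Submodule.subset_span ⟨X, hX, M, hM, rfl⟩
    have h3 := Submodule.sub_mem _ h2 (pR_mono hdd hy')
    have h4 : rq M = y' + (rq M - y') := by abel
    change rq M ∈ _
    rw [h4]
    refine Submodule.add_mem_sup (pR_snd hy') ⟨_, h3, fun u hu => ?_, rfl⟩
    change (A.ext X - y) u = 0
    rw [LinearMap.sub_apply, h1 u hu, sub_self]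

/-- **Main theorem**, without a condition on the centre. -/
theorem main_derU (h : Mot w B P) (hW : WRel w B Wt) (hH : PtM P H) (hr : RPart A U)
    (hN : RelR B AbVar.JJ N) (hα : DomU U B N) :
    ∃ L : Submodule ℚ (Matrix (Fin n) (Fin n) ℚ), (∀ x ∈ L, ∀ y ∈ L, x * y - y * x ∈ L) ∧
      N ∈ Submodule.span ℝ {M | ∃ x ∈ L, M = rq x} ∧
      ∀ x ∈ L, ∀ y ∈ L, x * y - y * x ∈ LQ H := by
  obtain ⟨N', hN', t, X, M, h1, h2⟩ := exists_J h
  have h3 : N = N' := hN.uniq h.li hN'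
  subst h3
  have h4 : N ∈ spR B (A.NA : Set (Module.End ℚ A.H1)) := by
    rw [h2]
    exact Submodule.sum_mem _ fun k _ => Submodule.smul_mem _ _ (mem_spR (h1 k).1 (h1 k).2)
  obtain ⟨Nc, hNc, Nd, hNd, hNe⟩ := exists_dec h h4
  have h5 := N_memU h hW hH hr hN hNc hNd hNe hα
  refine ⟨cdM B Wt H, fun x hx y hy => ?_, ?_, fun x hx y hy => ?_⟩
  · obtain ⟨d, hd, hd'⟩ := cdM_br h hW hH hx hy
    exact ⟨0, (cenA A).zero_mem, d, hd, 0, _, Rel.zero, hd', (zero_add _).symm⟩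
  · rw [hNe]
    refine Submodule.add_mem _ ?_ ?_
    · refine Submodule.span_mono ?_ hNc
      rintro _ ⟨Z, hZ, M, hM, rfl⟩
      exact ⟨M, ⟨Z, hZ, 0, (dq B Wt H).zero_mem, M, 0, hM, Rel.zero, (add_zero _).symm⟩, rfl⟩
    · refine Submodule.span_mono ?_ h5
      rintro _ ⟨d, hd, M, hM, rfl⟩
      exact ⟨M, ⟨0, (cenA A).zero_mem, d, hd, 0, M, Rel.zero, hM, (zero_add _).symm⟩, rfl⟩
  · obtain ⟨d, hd, hd'⟩ := cdM_br h hW hH hx hy
    obtain ⟨-, M', h6, h7⟩ := der_mem h hW hd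
    rw [hd'.uniq h.li h6]
    exact h7

/-- **Main theorem**, if the centre acts trivially. -/
theorem main_BU (h : Mot w B P) (hW : WRel w B Wt) (hH : PtM P H) (hc : NoCentre B)
    (hr : RPart A U) (hN : RelR B AbVar.JJ N) (hα : DomU U B N)
    {z : ℂ} (hz : z ≠ 0) : NormedSpace.exp (KK Wt N z) ∈ H ∧
      HRel w B z (NormedSpace.exp (KK Wt N z)) := by
  obtain ⟨N', hN', t, X, M, h1, h2⟩ := exists_J h
  have h3 : N = N' := hN.uniq h.li hN'
  subst h3
  have h4 : N ∈ spR B (A.NA : Set (Module.End ℚ A.H1)) := by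
    rw [h2]
    exact Submodule.sum_mem _ fun k _ => Submodule.smul_mem _ _ (mem_spR (h1 k).1 (h1 k).2)
  obtain ⟨Nc, hNc, Nd, hNd, hNe⟩ := exists_dec h h4
  have h5 := N_memU h hW hH hr hN hNc hNd hNe hα
  have h6 : Nc = 0 := by
    clear hNe
    induction hNc using Submodule.span_induction with
    | mem x hx =>
      obtain ⟨Z, hZ, M, hM, rfl⟩ := hx
      have h7 : Rel B Z 0 := hc Z hZ.1 fun Y hY => by
        rw [hZ.2 Y hY, sub_self]
        exact Rel.zero
      rw [hM.uniq h.li h7, rq_zero]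
    | zero => rfl
    | add a b _ _ ha hb => rw [ha, hb, add_zero]
    | smul c a _ ha => rw [ha, smul_zero]
  rw [h6, zero_add] at hNe
  rw [← hNe] at h5
  refine ⟨exp_mem hH.grp fun d => ?_, hrel_exp hW hN hz⟩
  unfold KK
  exact ((Wt_mem h hW hH hc d).smul _).add ((stab_spR h hW h5 d).smul _)

end Pool.Agent.N208.BT
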