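import Pool.Agent.N208.BT.Stm

set_option autoImplicit false

/-!
# Lie algebras of isometries of the complex hyperbolic space: assembly of the theorem
-/

noncomputable section

namespace Pool.Agent.N208.BT

open Matrix

variable {n : ℕ}

theorem hf_add_left (x y z : V n) : hf (x + y) z = hf x z + hf y z := by
  unfold hf
  simp only [Pi.add_apply, add_mul, Finset.sum_add_distrib]
  ring

theorem hf_smul_left (c : ℂ) (x y : V n) : hf (c • x) y = c * hf x y := by
  unfold hf
  simp only [Pi.smul_apply, smul_eq_mul, mul_assoc, ← Finset.mul_sum]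
  ring

theorem hf_conj (x y : V n) : hf y x = star (hf x y) := by
  unfold hf
  simp only [star_sub, star_mul', star_star, star_sum]
  congr 1
  · ring
  · refine Finset.sum_congr rfl fun i _ => ?_
    ring

theorem hf_add_right (x y z : V n) : hf x (y + z) = hf x y + hf x z := by
  rw [hf_conj, hf_add_left, star_add, ← hf_conj, ← hf_conj]

theorem hf_smul_right (c : ℂ) (x y : V n) : hf x (c • y) = star c * hf x y := by
  rw [hf_conj, hf_smul_left, star_mul', ← hf_conj]

theorem hf_zero_left (y : V n) : hf 0 y = 0 := by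
  unfold hf
  simp

theorem hf_zero_right (y : V n) : hf y 0 = 0 := by
  unfold hf
  simp

theorem hf_sub_left (x y z : V n) : hf (x - y) z = hf x z - hf y z := by
  have e : x - y = x + (-1 : ℂ) • y := by
    rw [neg_one_smul, sub_eq_add_neg]
  rw [e, hf_add_left, hf_smul_left]
  ring

theorem R_mulVec (a b x : V n) : R a b *ᵥ x = hf x b • a := by
  funext i
  have h1 : hf x b = ∑ j, x j * hf (Pi.single j 1) b := by
    have h2 : x = ∑ j, x j • (Pi.single j (1 : ℂ) : V n) := by
      conv_lhs => rw [← Finset.univ_sum_single x]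
      refine Finset.sum_congr rfl fun j _ => ?_
      rw [← Pi.single_smul, smul_eq_mul, mul_one]
    have h3 : ∀ (s : Finset (Fin (n + 1))) (c : Fin (n + 1) → V n),
        hf (∑ j ∈ s, c j) b = ∑ j ∈ s, hf (c j) b := by
      intro s c
      classical
      induction s using Finset.induction_on with
      | empty => rw [Finset.sum_empty, Finset.sum_empty, hf_zero_left]
      | insert j s hj ih => rw [Finset.sum_insert hj, Finset.sum_insert hj, hf_add_left, ih]
    conv_lhs => rw [h2]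
    rw [h3]
    exact Finset.sum_congr rfl fun j _ => hf_smul_left _ _ _
  rw [Pi.smul_apply, smul_eq_mul, h1, Matrix.mulVec, dotProduct, Finset.sum_mul]
  refine Finset.sum_congr rfl fun j _ => ?_
  rw [R, Matrix.of_apply]
  ring

/-- the inverse of a hyperbolic isometry is hyperbolic -/
theorem Hyp.inv {g g' : M n} {lam : ℂ} {u v : V n} (h : Hyp g lam u v) (hg : g * g' = 1)
    (hg' : g' * g = 1) : Hyp g' (star lam) v u where
  isU := fun x y => by
    have h1 := h.isU (g' *ᵥ x) (g' *ᵥ y)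
    rwa [Matrix.mulVec_mulVec, Matrix.mulVec_mulVec, hg, Matrix.one_mulVec, Matrix.one_mulVec,
      eq_comm] at h1
  one_lt := by
    rw [norm_star]
    exact h.one_lt
  hu := by
    have h0 : lam ≠ 0 := by
      intro h0
      have := h.one_lt
      rw [h0, norm_zero] at this
      exact absurd this (by norm_num)
    have h1 := congrArg (fun x => g' *ᵥ x) h.hv
    rw [Matrix.mulVec_mulVec, hg', Matrix.one_mulVec, Matrix.mulVec_smul] at h1
    have h2 : star lam ≠ 0 := star_ne_zero.2 h0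
    rw [h1, smul_smul, mul_inv_cancel₀ h2, one_smul]
    rw [← h1]
  hv := by
    have h0 : lam ≠ 0 := by
      intro h0
      have := h.one_lt
      rw [h0, norm_zero] at this
      exact absurd this (by norm_num)
    have h1 := congrArg (fun x => g' *ᵥ x) h.hu
    rw [Matrix.mulVec_mulVec, hg', Matrix.one_mulVec, Matrix.mulVec_smul] at h1
    rw [star_star]
    conv_rhs => rw [h1]
    rw [smul_smul, inv_mul_cancel₀ h0, one_smul]
  uu := h.vv
  vv := h.uu
  uv := by rw [hf_conj, h.uv, star_one]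

/-- the vector `v` does not span a stable line, for `n > 0` -/
theorem exists_ne {𝔯 : Submodule ℝ (M n)} (h : RR 𝔯) {u v : V n}
    (huv : hf u v = 1) (hvv : hf v v = 0) :
    ∃ y ∈ 𝔯, y *ᵥ v - hf (y *ᵥ v) u • v ≠ 0 := by
  by_contra hcon
  push Not at hcon
  have hv0 : v ≠ 0 := by
    rintro rfl
    rw [hf_zero_right] at huv
    exact zero_ne_one huv
  rcases h.irr (ℂ ∙ v) (by
    intro X hX x hx
    obtain ⟨c, rfl⟩ := Submodule.mem_span_singleton.1 hx
    rw [Matrix.mulVec_smul, sub_eq_zero.1 (hcon X hX), smul_smul]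
    exact Submodule.smul_mem _ _ (Submodule.mem_span_singleton_self v)) with h1 | h1
  · exact hv0 ((Submodule.span_singleton_eq_bot).1 h1)
  · have h2 : u ∈ (ℂ ∙ v) := by rw [h1]; trivial
    obtain ⟨c, hc⟩ := Submodule.mem_span_singleton.1 h2
    rw [← hc, hf_smul_left, hvv, mul_zero] at huv
    exact zero_ne_one huv

theorem iR_val {u v : V n} (huv : hf u v = 1) :
    hf ((Complex.I • R u u) *ᵥ v) v = Complex.I := by
  rw [Matrix.smul_mulVec, R_mulVec, hf_smul_left, hf_smul_left, huv, hf_conj, huv, star_one]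
  ring

/-- **The theorem**, from its parts. -/
theorem main_of (hTR : S_TR) (hEV : S_EV) (hL2 : S_L2) (hL1 : S_L1) (hX : S_X) (hA : S_A)
    (hB : S_B) (hG : S_G) : S_Main := by
  intro n 𝔯 h
  rcases Nat.eq_zero_or_pos n with hn | hn
  · subst hn
    left
    intro x hx
    have h1 : x = 0 := by
      unfold hf at hx
      simp only [Finset.univ_eq_empty, Finset.sum_empty, sub_zero] at hx
      have h2 : x 0 = 0 := by
        rcases mul_eq_zero.1 hx with h3 | h3
        · exact h3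
        · exact star_eq_zero.1 h3
      funext i
      have h3 : i = 0 := by omega
      rw [h3, h2]
      rfl
    have h2 : R x x = 0 := by
      ext i j
      rw [h1, R, Matrix.of_apply, Pi.zero_apply, zero_mul]
      rfl
    rw [h2, smul_zero]
    exact 𝔯.zero_mem
  obtain ⟨Q, hQ1, hQm, hQi, hQu, hQr, hQc⟩ := hG n 𝔯 h
  obtain ⟨g, hgQ, hgt⟩ := hTR n hn Q hQ1 hQm hQi hQu hQr
  obtain ⟨lam, u, v, hyp⟩ := hEV n g (hQu g hgQ) hgt
  obtain ⟨g', hg'Q, hg1, hg2⟩ := hQi g hgQ
  have hyp' := hyp.inv hg1 hg2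
  have hsk : ∀ y ∈ 𝔯, IsSk y := h.sk
  have hc := hQc g hgQ g' hg1
  have hc' := hQc g' hg'Q g hg2
  have hvu : hf v u = 1 := hyp'.uv
  by_cases ha : ∃ y ∈ 𝔯, hf (y *ᵥ v) v ≠ 0
  · obtain ⟨y, hy, hyv⟩ := ha
    have hu : Complex.I • R u u ∈ 𝔯 := hL2 n 𝔯 g g' lam u v hyp hg1 hsk hc y hy hyv
    by_cases hb : ∃ y ∈ 𝔯, hf (y *ᵥ u) u ≠ 0
    · obtain ⟨y', hy', hyu⟩ := hb
      have hv : Complex.I • R v v ∈ 𝔯 :=
        hL2 n 𝔯 g' g (star lam) v u hyp' hg2 hsk hc' y' hy' hyu
      exact Or.inl (hA n 𝔯 u v h hyp.uu hyp.vv hyp.uv hu hv)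
    · push Not at hb
      exfalso
      obtain ⟨y', hy', hne⟩ := exists_ne h hvu hyp.uu
      have hN := hL1 n 𝔯 g' g (star lam) v u hyp' hg2 hsk hc' y' hy' (hb y' hy')
      have hw1 : hf (y' *ᵥ u - hf (y' *ᵥ u) v • u) v = 0 := by
        rw [hf_sub_left, hf_smul_left, hyp.uv]
        ring
      have hw2 : hf (y' *ᵥ u - hf (y' *ᵥ u) v • u) u = 0 := by
        rw [hf_sub_left, hf_smul_left, hyp.uu, hb y' hy']
        ring
      have h3 := hX n 𝔯 v u _ h.br hyp.vv hyp.uu hvu hw1 hw2 hne hN hu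
      have h4 := hb _ h3
      rw [iR_val hvu] at h4
      exact Complex.I_ne_zero h4
  · push Not at ha
    have hNv : ∀ y ∈ 𝔯, N u (y *ᵥ v - hf (y *ᵥ v) u • v) ∈ 𝔯 := fun y hy =>
      hL1 n 𝔯 g g' lam u v hyp hg1 hsk hc y hy (ha y hy)
    by_cases hb : ∃ y ∈ 𝔯, hf (y *ᵥ u) u ≠ 0
    · exfalso
      obtain ⟨y', hy', hyu⟩ := hb
      have hv : Complex.I • R v v ∈ 𝔯 :=
        hL2 n 𝔯 g' g (star lam) v u hyp' hg2 hsk hc' y' hy' hyu
      obtain ⟨y, hy, hne⟩ := exists_ne h hyp.uv hyp.vv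
      have hw1 : hf (y *ᵥ v - hf (y *ᵥ v) u • v) u = 0 := by
        rw [hf_sub_left, hf_smul_left, hvu]
        ring
      have hw2 : hf (y *ᵥ v - hf (y *ᵥ v) u • v) v = 0 := by
        rw [hf_sub_left, hf_smul_left, hyp.vv, ha y hy]
        ring
      have h3 := hX n 𝔯 u v _ h.br hyp.uu hyp.vv hyp.uv hw1 hw2 hne (hNv y hy) hv
      have h4 := ha _ h3
      rw [iR_val hyp.uv] at h4
      exact Complex.I_ne_zero h4
    · push Not at hb
      have hNu : ∀ y ∈ 𝔯, N v (y *ᵥ u - hf (y *ᵥ u) v • u) ∈ 𝔯 := fun y hy =>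
        hL1 n 𝔯 g' g (star lam) v u hyp' hg2 hsk hc' y hy (hb y hy)
      exact Or.inr (hB n 𝔯 u v h hyp.uu hyp.vv hyp.uv ha hb hNv hNu)

end Pool.Agent.N208.BT
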