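import Pool.Agent.N208.AD.Dec

set_option autoImplicit false
set_option linter.unusedSectionVars false

/-!
# The complex structure in the derived algebra of a subalgebra, up to the centre: motives
-/

open Module Function TensorProduct Matrix

noncomputable section

namespace Pool.Agent.N208.BT

open Pool.Agent.Y102 Pool.Agent.W516.DR Pool.Agent.H204R3.GP Pool.Agent.W516.KC
  Pool.Agent.H204R3.SP Pool.Agent.TH119.MX Pool.Agent.R917 Pool.Agent.N208.AM Pool.Agent.N208.AD

variable {g : ℕ} {A : AbVar g} {s n : ℕ} {r : Fin s → ℕ} {B : Fin n → Ten A r} {w : Fin s → ℤ}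
  {P : Matrix (Fin n) (Fin n) ℂ} {H : Set (Matrix (Fin n) (Fin n) ℂ)}
  {Wt : Matrix (Fin n) (Fin n) ℚ} {N : Matrix (Fin n) (Fin n) ℝ}

theorem spE_mono {S T : Set (Module.End ℚ A.H1)} (h : S ⊆ T) : spE A S ≤ spE A T :=
  Submodule.span_mono fun _ ⟨X, hX, e⟩ => ⟨X, h hX, e⟩

/-- The decomposition of the real Lie algebra into the centre and the derived algebra. -/
theorem exists_decE {x : Module.End ℝ (Fin g → ℂ)}
    (hx : x ∈ spE A (A.NA : Set (Module.End ℚ A.H1))) :
    ∃ c ∈ spE A (cenA A : Set (Module.End ℚ A.H1)),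
      ∃ d ∈ spE A (der A.NA : Set (Module.End ℚ A.H1)), x = c + d := by
  induction hx using Submodule.span_induction with
  | mem x hx =>
    obtain ⟨X, hX, rfl⟩ := hx
    obtain ⟨Z, hZ, d, hd, rfl, hcomm⟩ := full_NA.dec hX
    exact ⟨A.ext Z, mem_spE (S := (cenA A : Set (Module.End ℚ A.H1))) ⟨hZ, hcomm⟩, A.ext d,
      mem_spE hd, ext_add Z d⟩
  | zero => exact ⟨0, Submodule.zero_mem _, 0, Submodule.zero_mem _, (add_zero _).symm⟩
  | add a b _ _ ha hb =>
    obtain ⟨c, hc, d, hd, rfl⟩ := ha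
    obtain ⟨c', hc', d', hd', rfl⟩ := hb
    exact ⟨c + c', Submodule.add_mem _ hc hc', d + d', Submodule.add_mem _ hd hd', by abel⟩
  | smul t a _ ha =>
    obtain ⟨c, hc, d, hd, rfl⟩ := ha
    exact ⟨t • c, Submodule.smul_mem _ _ hc, t • d, Submodule.smul_mem _ _ hd, smul_add _ _ _⟩

theorem cen_commE {x y : Module.End ℝ (Fin g → ℂ)}
    (hx : x ∈ spE A (cenA A : Set (Module.End ℚ A.H1)))
    (hy : y ∈ spE A (A.NA : Set (Module.End ℚ A.H1))) : x * y = y * x := by
  induction hx using Submodule.span_induction with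
  | mem x hx =>
    obtain ⟨X, hX, rfl⟩ := hx
    induction hy using Submodule.span_induction with
    | mem y hy =>
      obtain ⟨Y, hY, rfl⟩ := hy
      rw [← ext_mul, ← ext_mul, hX.2 Y hY]
    | zero => rw [mul_zero, zero_mul]
    | add a b _ _ ha hb => rw [mul_add, add_mul, ha, hb]
    | smul c a _ ha => rw [mul_smul_comm, smul_mul_assoc, ha]
  | zero => rw [mul_zero, zero_mul]
  | add a b _ _ ha hb => rw [mul_add, add_mul, ha, hb]
  | smul c a _ ha => rw [mul_smul_comm, smul_mul_assoc, ha]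

/-- A central element of the derived algebra is zero. -/
theorem zero_of_cen_der {x : Module.End ℝ (Fin g → ℂ)}
    (hx : x ∈ spE A (der A.NA : Set (Module.End ℚ A.H1)))
    (hc : ∀ y ∈ spE A (A.NA : Set (Module.End ℚ A.H1)), x * y = y * x) : x = 0 := by
  have hxN : x ∈ spE A (A.NA : Set (Module.End ℚ A.H1)) :=
    spE_mono (S := (der A.NA : Set (Module.End ℚ A.H1))) der_NA_le hx
  have h1 : ∀ y ∈ spE A (der A.NA : Set (Module.End ℚ A.H1)),
      LinearMap.trace ℝ (Fin g → ℂ) (y * x) = 0 := by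
    have h2 : ∀ Y ∈ der A.NA, LinearMap.trace ℝ (Fin g → ℂ) (A.ext Y * x) = 0 := by
      intro Y hY
      unfold der at hY
      induction hY using Submodule.span_induction with
      | mem Y hY =>
        obtain ⟨a, ha, b, hb, rfl⟩ := hY
        rw [ext_sub, ext_mul, ext_mul, sub_mul, mul_assoc, mul_assoc,
          ← hc _ (mem_spE (S := (A.NA : Set (Module.End ℚ A.H1))) hb), ← mul_assoc, map_sub,
          LinearMap.trace_mul_comm, ← mul_assoc, mul_assoc, sub_self]
      | zero => rw [ext_zero, zero_mul, map_zero]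
      | add a b _ _ ha hb => rw [ext_add, add_mul, map_add, ha, hb, add_zero]
      | smul c a _ ha => rw [ext_smul, smul_mul_assoc, map_smul, ha, smul_zero]
    intro y hy
    induction hy using Submodule.span_induction with
    | mem y hy =>
      obtain ⟨Y, hY, rfl⟩ := hy
      exact h2 Y hY
    | zero => rw [zero_mul, map_zero]
    | add a b _ _ ha hb => rw [add_mul, map_add, ha, hb, add_zero]
    | smul c a _ ha => rw [smul_mul_assoc, map_smul, ha, smul_zero]
  by_contra hne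
  have h3 := tr_adj_pos (adj_spE hxN) hne
  have h4 : x * -th x = (-1 : ℝ) • (x * x) := by
    refine LinearMap.ext fun u => ?_
    have h5 : x (AbVar.JJ (AbVar.JJ u)) = -x u := by
      rw [AbVar.JJ_apply, AbVar.JJ_apply, smul_smul, Complex.I_mul_I, neg_one_smul, map_neg]
    rw [th_eq, neg_neg, ← hc _ JJ_mem, Module.End.mul_apply, Module.End.mul_apply,
      Module.End.mul_apply, h5, map_neg, LinearMap.smul_apply, Module.End.mul_apply, neg_one_smul]
  rw [h4, map_smul, h1 x hx, smul_zero] at h3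
  exact lt_irrefl _ h3

/-- The matrices of the real span. -/
theorem exists_relR (h : Mot w B P) {S : Set (Module.End ℚ A.H1)} (hS : ∀ X ∈ S, X ∈ A.NA)
    {Y : Module.End ℝ (Fin g → ℂ)} (hY : Y ∈ spE A S) :
    ∃ N : Matrix (Fin n) (Fin n) ℝ, RelR B Y N ∧ N ∈ spR B S := by
  induction hY using Submodule.span_induction with
  | mem Y hY =>
    obtain ⟨X, hX, rfl⟩ := hY
    obtain ⟨M, hM⟩ := h.st X (hS X hX)
    exact ⟨_, hM.real, mem_spR hX hM⟩
  | zero => exact ⟨0, RelR.zero, Submodule.zero_mem _⟩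
  | add a b _ _ ha hb =>
    obtain ⟨M, h1, h2⟩ := ha
    obtain ⟨M', h1', h2'⟩ := hb
    exact ⟨M + M', h1.add h1', Submodule.add_mem _ h2 h2'⟩
  | smul c a _ ha =>
    obtain ⟨M, h1, h2⟩ := ha
    exact ⟨c • M, h1.smul c, Submodule.smul_mem _ _ h2⟩

/-- The condition: the complex structure is in the derived algebra up to the centre. -/
def JD (A : AbVar g) (𝔮 : Submodule ℚ (Module.End ℚ A.H1)) : Prop :=
  ∃ J' ∈ spE A (der 𝔮 : Set (Module.End ℚ A.H1)),
    ∀ X ∈ spE A (A.NA : Set (Module.End ℚ A.H1)),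
      ((AbVar.JJ : Module.End ℝ (Fin g → ℂ)) - J') * X = X * (AbVar.JJ - J')

/-- The decomposition of the complex structure. -/
theorem JD.dec {𝔮 : Submodule ℚ (Module.End ℚ A.H1)} (hq : A.Full 𝔮) (hJ : JD A 𝔮) :
    ∃ c ∈ spE A (cenA A : Set (Module.End ℚ A.H1)),
      ∃ d ∈ spE A (der 𝔮 : Set (Module.End ℚ A.H1)), (AbVar.JJ : Module.End ℝ (Fin g → ℂ)) = c + d := by
  obtain ⟨J', hJ', hcen⟩ := hJ
  obtain ⟨c, hc, d, hd, e⟩ := exists_decE (A := A) JJ_mem
  have hdd : der 𝔮 ≤ der A.NA := by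
    unfold der
    exact Submodule.span_mono fun _ ⟨X, hX, Y, hY, e⟩ => ⟨X, hq.le hX, Y, hq.le hY, e⟩
  have h1 : d - J' = 0 := by
    refine zero_of_cen_der (Submodule.sub_mem _ hd
      (spE_mono (S := (der 𝔮 : Set (Module.End ℚ A.H1))) hdd hJ')) fun y hy => ?_
    have e1 : d - J' = (AbVar.JJ - J') - c := by rw [e]; abel
    rw [e1, sub_mul, mul_sub, hcen y hy, cen_commE hc hy]
  refine ⟨c, hc, d, ?_, e⟩
  rw [sub_eq_zero.1 h1]
  exact hJ'

/-- **Main theorem**, without a condition on the centre. -/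
theorem JD.main_der (h : Mot w B P) (hW : WRel w B Wt) (hH : PtM P H)
    (hN : RelR B AbVar.JJ N) (hJ : JD A (qM B Wt H)) :
    ∃ L : Submodule ℚ (Matrix (Fin n) (Fin n) ℚ), (∀ x ∈ L, ∀ y ∈ L, x * y - y * x ∈ L) ∧
      N ∈ Submodule.span ℝ {M | ∃ x ∈ L, M = rq x} ∧
      ∀ x ∈ L, ∀ y ∈ L, x * y - y * x ∈ LQ H := by
  have hq := qM_full h hW hH
  obtain ⟨c, hc, d, hd, e⟩ := hJ.dec hq
  obtain ⟨Nc, hNc, hNc'⟩ := exists_relR h (S := (cenA A : Set (Module.End ℚ A.H1)))
    (fun X hX => hX.1) hc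
  obtain ⟨Nd, hNd, hNd'⟩ := exists_relR h (S := (dq B Wt H : Set (Module.End ℚ A.H1)))
    (fun X hX => (der_mem h hW hX).1) hd
  have hNe : N = Nc + Nd := by
    refine hN.uniq h.li ?_
    have h1 := hNc.add hNd
    rw [← e] at h1
    exact h1
  refine ⟨cdM B Wt H, fun x hx y hy => ?_, ?_, fun x hx y hy => ?_⟩
  · obtain ⟨d, hd, hd'⟩ := cdM_br h hW hH hx hy
    exact ⟨0, (cenA A).zero_mem, d, hd, 0, _, Rel.zero, hd', (zero_add _).symm⟩
  · rw [hNe]
    refine Submodule.add_mem _ ?_ ?_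
    · refine Submodule.span_mono ?_ hNc'
      rintro _ ⟨Z, hZ, M, hM, rfl⟩
      exact ⟨M, ⟨Z, hZ, 0, (dq B Wt H).zero_mem, M, 0, hM, Rel.zero, (add_zero _).symm⟩, rfl⟩
    · refine Submodule.span_mono ?_ hNd'
      rintro _ ⟨d, hd, M, hM, rfl⟩
      exact ⟨M, ⟨0, (cenA A).zero_mem, d, hd, 0, M, Rel.zero, hM, (zero_add _).symm⟩, rfl⟩
  · obtain ⟨d, hd, hd'⟩ := cdM_br h hW hH hx hy
    obtain ⟨-, M', h6, h7⟩ := der_mem h hW hd
    rw [hd'.uniq h.li h6]
    exact h7

/-- **Main theorem**, if the centre acts trivially. -/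
theorem JD.main_B (h : Mot w B P) (hW : WRel w B Wt) (hH : PtM P H) (hc : NoCentre B)
    (hN : RelR B AbVar.JJ N) (hJ : JD A (qM B Wt H)) {z : ℂ} (hz : z ≠ 0) :
    NormedSpace.exp (KK Wt N z) ∈ H ∧ HRel w B z (NormedSpace.exp (KK Wt N z)) := by
  have hq := qM_full h hW hH
  obtain ⟨c, hc', d, hd, e⟩ := hJ.dec hq
  obtain ⟨Nc, hNc, hNc'⟩ := exists_relR h (S := (cenA A : Set (Module.End ℚ A.H1)))
    (fun X hX => hX.1) hc'
  obtain ⟨Nd, hNd, hNd'⟩ := exists_relR h (S := (dq B Wt H : Set (Module.End ℚ A.H1)))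
    (fun X hX => (der_mem h hW hX).1) hd
  have hNe : N = Nc + Nd := by
    refine hN.uniq h.li ?_
    have h1 := hNc.add hNd
    rw [← e] at h1
    exact h1
  have h6 : Nc = 0 := by
    clear hNe hNc
    induction hNc' using Submodule.span_induction with
    | mem x hx =>
      obtain ⟨Z, hZ, M, hM, rfl⟩ := hx
      have h7 : Rel B Z 0 := hc Z hZ.1 fun Y hY => by
        rw [hZ.2 Y hY, sub_self]
        exact Rel.zero
      rw [hM.uniq h.li h7, rq_zero]
    | zero => rfl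
    | add a b _ _ ha hb => rw [ha, hb, add_zero]
    | smul c a _ ha => rw [ha, smul_zero]
  rw [h6, zero_add] at hNe
  rw [← hNe] at hNd'
  refine ⟨exp_mem hH.grp fun d => ?_, hrel_exp hW hN hz⟩
  unfold KK
  exact ((Wt_mem h hW hH hc d).smul _).add ((stab_spR h hW hNd' d).smul _)

end Pool.Agent.N208.BT
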