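import Pool.Agent.N208.BT.AllG
import Pool.Agent.N768.BGPD

set_option autoImplicit false

/-!
# Division algebras of prime degree: assembly
-/

open Module Matrix

noncomputable section

namespace Pool.Agent.N208.BT

open Pool.Agent.Y102 Pool.Agent.W516.DR Pool.Agent.H204R3.GP Pool.Agent.W516.KC
  Pool.Agent.H204R3.SP Pool.Agent.TH119.MX Pool.Agent.R917 Pool.Agent.N208.AM Pool.Agent.N208.AD

variable {g : ℕ} {A : AbVar g} {z : Module.End ℚ A.H1}

/-- If all signs are `ep`, then only the eigenvalue `i ep al` occurs on the tangent space. -/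
theorem eig_of_sign {al : ℝ} (hq : HQ A z al) {N : ℕ} {sg : Fin N → ℝ}
    {φ : VN N →ₗ[ℝ] (Fin g → ℂ)} (hW : WN A z al N sg φ) {ep : ℝ} (hep : ep * ep = 1)
    (hs : ∀ i, sg i = ep) {b : ℝ} (hb : b = -(ep * al)) {x : Fin g → ℂ} (hx : Eig A z b x) :
    x = 0 := by
  have hcr : ∀ P ∈ A.EA, ∀ x : Fin g → ℂ, A.ext P (Complex.I • x) = Complex.I • A.ext P x :=
    fun P hP x => AbVar.CR_complex A.endAlg (Submodule.subset_span ⟨P, hP, rfl⟩) _ x
  -- the operator `J - ep al⁻¹ z`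
  let y : Module.End ℝ (Fin g → ℂ) := AbVar.JJ - (ep * al⁻¹) • A.ext z
  have hy : ∀ x, y x = Complex.I • x - (ep * al⁻¹) • A.ext z x := fun x => rfl
  have h1 : ∀ P ∈ A.EA, y * A.ext P = A.ext P * y := by
    intro P hP
    refine LinearMap.ext fun x => ?_
    have e2 : A.ext P ((ep * al⁻¹) • A.ext z x) = (ep * al⁻¹) • A.ext P (A.ext z x) :=
      map_smul (A.ext P) _ _
    have e3 : A.ext z (A.ext P x) = A.ext P (A.ext z x) := by
      rw [← Module.End.mul_apply, ← Module.End.mul_apply, ← ext_mul, ← ext_mul, hq.cen P hP]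
    rw [Module.End.mul_apply, Module.End.mul_apply, hy, hy, map_sub, hcr P hP, e2, e3]
  have h2 : ∀ x, y (φ x) = 0 := by
    intro x
    have e1 : (fun i => (sg i : ℂ) * (Complex.I * x i)) = ep • (Complex.I • x) := by
      funext i
      rw [hs i, Pi.smul_apply, Pi.smul_apply, Complex.real_smul, smul_eq_mul]
    rw [hy, hW.cx, e1, map_smul, hW.mulI, smul_smul, sub_self]
  have h3 : y x = 0 := by
    refine hW.gen y h1 h2 x (eig_mem_V0 hq.mem ?_ hx)
    rw [hb]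
    linear_combination (al ^ 2) * hep
  rw [hy, show A.ext z x = _ from hx, hb] at h3
  have h4 : (ep * al⁻¹) • ((((-(ep * al) : ℝ) : ℂ) * Complex.I) • x) = -(Complex.I • x) := by
    have e1 : ∀ (c : ℝ) (x : Fin g → ℂ), c • x = (c : ℂ) • x := fun c x => rfl
    rw [e1, smul_smul, ← neg_smul]
    congr 1
    have e2 : ((ep : ℂ) * ep) = 1 := by exact_mod_cast hep
    have e3 : ((al : ℂ))⁻¹ * al = 1 := inv_mul_cancel₀ (Complex.ofReal_ne_zero.2 hq.ne)
    push_cast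
    linear_combination (-(Complex.I * ((al : ℂ)⁻¹ * al))) * e2 - Complex.I * e3
  rw [h4, sub_neg_eq_add, ← two_smul ℂ (Complex.I • x), smul_smul] at h3
  rcases smul_eq_zero.1 h3 with h5 | h5
  · exact absurd h5 (mul_ne_zero two_ne_zero Complex.I_ne_zero)
  · exact h5

/-- Both eigenvalues occur, so the signature is indefinite. -/
theorem mixed_of {al : ℝ} (hq : HQ A z al) (h1 : ∃ x, x ≠ 0 ∧ Eig A z al x)
    (h2 : ∃ x, x ≠ 0 ∧ Eig A z (-al) x) {N : ℕ} {sg : Fin N → ℝ}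
    {φ : VN N →ₗ[ℝ] (Fin g → ℂ)} (hW : WN A z al N sg φ) : Mixed sg := by
  constructor
  · by_contra hcon
    push Not at hcon
    obtain ⟨x, hx, hxe⟩ := h1
    exact hx (eig_of_sign hq hW (ep := -1) (by norm_num)
      (fun i => (hW.isSg i).resolve_left (hcon i)) (by ring) hxe)
  · by_contra hcon
    push Not at hcon
    obtain ⟨x, hx, hxe⟩ := h2
    exact hx (eig_of_sign hq hW (ep := 1) (by norm_num)
      (fun i => (hW.isSg i).resolve_right (hcon i)) (by ring) hxe)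

/-- The data of a division algebra of prime degree. -/
structure HD (A : AbVar g) (z : Module.End ℚ A.H1) (Sg : Finset ℝ) (p : ℕ) : Prop where
  mem : z ∈ A.EA
  cen : ∀ P ∈ A.EA, z * P = P * z
  skew : IsSkew A.om z
  gen : ∀ P ∈ A.EA, (∀ Q ∈ A.EA, P * Q = Q * P) →
    ∃ q : Polynomial ℚ, P * z = Polynomial.aeval z q * z
  ne : ∀ al ∈ Sg, al ≠ 0
  e1 : ∀ al ∈ Sg, ∃ x, x ≠ 0 ∧ Eig A z al x
  e2 : ∀ al ∈ Sg, ∃ x, x ≠ 0 ∧ Eig A z (-al) x
  disj : ∀ al ∈ Sg, -al ∉ Sg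
  sep : SepG A z Sg
  pd : PD A z p

theorem HD.hq {Sg : Finset ℝ} {p : ℕ} (h : HD A z Sg p) {al : ℝ} (ha : al ∈ Sg) :
    HQ A z al where
  mem := h.mem
  cen := h.cen
  skew := h.skew
  gen := h.gen
  ne := h.ne al ha
  ex := by
    obtain ⟨x, hx, hxe⟩ := h.e1 al ha
    exact ⟨x, eig_mem_V0 h.mem rfl hxe, hx⟩

theorem hg_of (hPD : G_PD) {Sg : Finset ℝ} {p : ℕ} (h : HD A z Sg p) : HG A z Sg where
  hq := fun _ ha => h.hq ha
  disj := h.disj
  sep := h.sep
  big := fun _ ha N sg φ hW =>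
    have hm := mixed_of (h.hq ha) (h.e1 _ ha) (h.e2 _ ha) hW
    ⟨hm, fun 𝔮 hq => hPD g A z _ p (h.hq ha) h.pd N sg φ hW hm 𝔮 hq⟩

theorem gpd_main : G_PD := N768.BGPD.main N755.BGRR.main

theorem rpartD {Sg : Finset ℝ} {p : ℕ} (h : HD A z Sg p) : RPart A (US A z Sg) :=
  rpartG (hg_of gpd_main h)

end Pool.Agent.N208.BT
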