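import Pool.Agent.N208.BT.Fin
import Pool.Agent.N208.BT.Stm5
import Pool.Agent.N773.BTWA2

set_option autoImplicit false

/-!
# Unitary parts: from statements about abelian varieties to `RPart`
-/

open Module Matrix

noncomputable section

namespace Pool.Agent.N208.BT

open Pool.Agent.Y102 Pool.Agent.W516.DR Pool.Agent.H204R3.GP Pool.Agent.W516.KC
  Pool.Agent.H204R3.SP Pool.Agent.TH119.MX Pool.Agent.R917 Pool.Agent.N208.AM Pool.Agent.N208.AD

variable {g : ℕ} {A : AbVar g} {z : Module.End ℚ A.H1}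

/-- The sum of the eigenspaces of `± i al`, `al ∈ Sg` (as a set, their union). -/
def US (A : AbVar g) (z : Module.End ℚ A.H1) (Sg : Finset ℝ) : Set (Fin g → ℂ) :=
  {u | ∃ al ∈ Sg, u ∈ V0 A z al}

theorem V0_NA (hz : z ∈ A.EA) {al : ℝ} {X : Module.End ℚ A.H1} (hX : X ∈ A.NA) {u : Fin g → ℂ}
    (hu : u ∈ V0 A z al) : A.ext X u ∈ V0 A z al :=
  Pool.Agent.N773.BTWA2.V0_stab (fun y => Pool.Agent.N773.BTWA2.NA_ext hX hz y) hu

theorem rpart_of (hSJ : S_SJ) {Sg : Finset ℝ} (h : HB A z Sg) : RPart A (US A z Sg) where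
  stab X hX u hu := by
    obtain ⟨al, hal, hu⟩ := hu
    exact ⟨al, hal, V0_NA (h.hp al hal).mem hX hu⟩
  der 𝔮 h𝔮 X hX := by
    obtain ⟨y, hy, h1⟩ := hSJ g A z Sg h 𝔮 h𝔮 X hX
    refine ⟨y, hy, fun u hu => ?_⟩
    obtain ⟨al, hal, hu⟩ := hu
    exact h1 al hal u hu

theorem rpart_ofG (hSJ : G_SJ) {Sg : Finset ℝ} (h : HG A z Sg) : RPart A (US A z Sg) where
  stab X hX u hu := by
    obtain ⟨al, hal, hu⟩ := hu
    exact ⟨al, hal, V0_NA (h.hq al hal).mem hX hu⟩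
  der 𝔮 h𝔮 X hX := by
    obtain ⟨y, hy, h1⟩ := hSJ g A z Sg h 𝔮 h𝔮 X hX
    refine ⟨y, hy, fun u hu => ?_⟩
    obtain ⟨al, hal, hu⟩ := hu
    exact h1 al hal u hu

/-- Eigenvectors are in `V₀`. -/
theorem eig_mem_V0 (hz : z ∈ A.EA) {al b : ℝ} (hb : b ^ 2 = al ^ 2) {x : Fin g → ℂ}
    (hx : Eig A z b x) : x ∈ V0 A z al := by
  rw [Pool.Agent.N773.BTWA2.mem_V0]
  have hC : ∀ (c : ℂ) (x : Fin g → ℂ), A.ext z (c • x) = c • A.ext z x := fun c x =>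
    AbVar.CR_complex A.endAlg (Pool.Agent.N773.BTWA2.mem_CR hz) c x
  rw [show A.ext z x = _ from hx, hC, show A.ext z x = _ from hx, smul_smul, ← hb]
  have h1 : (b ^ 2) • x = (((b : ℂ)) ^ 2) • x := by
    rw [← Complex.ofReal_pow]
    rfl
  rw [h1, ← add_smul]
  have h2 : (b : ℂ) * Complex.I * (b * Complex.I) + (b : ℂ) ^ 2 = 0 := by
    linear_combination (b : ℂ) ^ 2 * Complex.I_mul_I
  rw [h2, zero_smul]

end Pool.Agent.N208.BT
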