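import Pool.Agent.N208.AD.Dec
import Pool.Agent.N208.BT.Stm

set_option autoImplicit false

/-!
# Abelian varieties of Harris-Taylor type: statements
-/

open Module Matrix

noncomputable section

namespace Pool.Agent.N208.BT

open Pool.Agent.Y102 Pool.Agent.W516.DR Pool.Agent.H204R3.GP Pool.Agent.W516.KC
  Pool.Agent.H204R3.SP Pool.Agent.TH119.MX Pool.Agent.R917 Pool.Agent.N208.AM Pool.Agent.N208.AD

variable {g : ℕ} (A : AbVar g)

/-- `x` is in the eigenspace of `z` on the tangent space for the eigenvalue `i b` -/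
def Eig (z : Module.End ℚ A.H1) (b : ℝ) (x : Fin g → ℂ) : Prop :=
  A.ext z x = ((b : ℂ) * Complex.I) • x

/-- the hypotheses: the centre of the endomorphism algebra is the field `ℚ[z]`, `z` is skew, the
eigenspace of `i al` on the tangent space is simple under the endomorphism algebra, and all
eigenvalues `i b` with `b ≠ ± al` occur only with one sign -/
structure HT (z : Module.End ℚ A.H1) (al : ℝ) : Prop where
  mem : z ∈ A.EA
  cen : ∀ P ∈ A.EA, z * P = P * z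
  skew : IsSkew A.om z
  field : ∀ q : Polynomial ℚ, Polynomial.aeval z q ≠ 0 →
    Function.Injective (Polynomial.aeval z q)
  gen : ∀ P ∈ A.EA, (∀ Q ∈ A.EA, P * Q = Q * P) → ∃ q : Polynomial ℚ, P = Polynomial.aeval z q
  ne : al ≠ 0
  ex : ∃ x, x ≠ 0 ∧ Eig A z al x
  simple : ∀ x y, x ≠ 0 → Eig A z al x → Eig A z al y →
    y ∈ Submodule.span ℂ {w | ∃ P ∈ A.EA, w = A.ext P x}
  other : ∀ b : ℝ, b ≠ al → b ≠ -al → (∃ x, x ≠ 0 ∧ Eig A z b x) → ∀ x, Eig A z (-b) x → x = 0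

/-- the real subspace `V₀` -/
def V0 (z : Module.End ℚ A.H1) (al : ℝ) : Submodule ℝ (Fin g → ℂ) :=
  LinearMap.ker (A.ext z * A.ext z + (al ^ 2) • (1 : Module.End ℝ (Fin g → ℂ)))

/-- the orthogonal complement of `V₀` for the positive form -/
def V1 (z : Module.End ℚ A.H1) (al : ℝ) : Submodule ℝ (Fin g → ℂ) where
  carrier := {x | ∀ y ∈ V0 A z al, A.PF x y = 0}
  zero_mem' := fun y _ => by rw [map_zero, LinearMap.zero_apply]
  add_mem' := fun {a b} ha hb y hy => by rw [map_add, LinearMap.add_apply, ha y hy, hb y hy, add_zero]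
  smul_mem' := fun c a ha y hy => by rw [map_smul, LinearMap.smul_apply, ha y hy, smul_zero]

/-- the commutant of the endomorphism algebra in `End(H_1(A, ℚ))` -/
def CB : Submodule ℚ (Module.End ℚ A.H1) where
  carrier := {X | ∀ P ∈ A.EA, X * P = P * X}
  zero_mem' := fun P _ => by rw [zero_mul, mul_zero]
  add_mem' := fun {a b} ha hb P hP => by rw [add_mul, mul_add, ha P hP, hb P hP]
  smul_mem' := fun c a ha P hP => by rw [smul_mul_assoc, mul_smul_comm, ha P hP]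

/-- an anti-automorphism of the commutant which fixes `z` -/
def Anti (z : Module.End ℚ A.H1) : Prop :=
  ∃ τ : Module.End ℚ A.H1 →ₗ[ℚ] Module.End ℚ A.H1, (∀ X ∈ CB A, τ X ∈ CB A) ∧
    (∀ Y ∈ CB A, ∃ X ∈ CB A, τ X = Y) ∧ (∀ X ∈ CB A, ∀ Y ∈ CB A, τ (X * Y) = τ Y * τ X) ∧ τ z = z

/-- a simple submodule `W` of `V₀` with a basis -/
structure WD (z : Module.End ℚ A.H1) (al : ℝ) (n : ℕ) (φ : V n →ₗ[ℝ] (Fin g → ℂ)) : Prop where
  inj : Function.Injective φ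
  mulI : ∀ x, φ (Complex.I • x) = al⁻¹ • A.ext z (φ x)
  cx : ∀ x, Complex.I • φ x = φ (fun i => if i = 0 then Complex.I * x i else -(Complex.I * x i))
  form : ∀ x y, (hf x y).im = -A.E (φ x) (φ y)
  stab : ∀ X ∈ A.NA, ∀ x, ∃ y, A.ext X (φ x) = φ y
  simple : ∀ U : Submodule ℂ (V n), (∀ X ∈ A.NA, ∀ x ∈ U, ∀ y, A.ext X (φ x) = φ y → y ∈ U) →
    U = ⊥ ∨ U = ⊤
  gen : ∀ y : Module.End ℝ (Fin g → ℂ), (∀ P ∈ A.EA, y * A.ext P = A.ext P * y) →
    (∀ x, y (φ x) = 0) → ∀ x ∈ V0 A z al, y x = 0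

/-- the matrices of the elements of the real span of a Lie algebra on `W` -/
def rW (S : Submodule ℚ (Module.End ℚ A.H1)) {n : ℕ} (φ : V n →ₗ[ℝ] (Fin g → ℂ)) :
    Submodule ℝ (M n) where
  carrier := {m | ∃ y ∈ spE A (S : Set (Module.End ℚ A.H1)), ∀ x, y (φ x) = φ (m *ᵥ x)}
  zero_mem' := ⟨0, Submodule.zero_mem _, fun x => by
    rw [LinearMap.zero_apply, Matrix.zero_mulVec, map_zero]⟩
  add_mem' := by
    rintro a b ⟨y, hy, h⟩ ⟨y', hy', h'⟩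
    exact ⟨y + y', Submodule.add_mem _ hy hy', fun x => by
      rw [LinearMap.add_apply, Matrix.add_mulVec, map_add, h, h']⟩
  smul_mem' := by
    rintro c a ⟨y, hy, h⟩
    exact ⟨c • y, Submodule.smul_mem _ c hy, fun x => by
      rw [LinearMap.smul_apply, Matrix.smul_mulVec, map_smul, h]⟩

/-- **BT/K.** A rational endomorphism which commutes with `z` and kills `V₀` is zero. -/
def S_K : Prop := ∀ (g : ℕ) (A : AbVar g) (z : Module.End ℚ A.H1) (al : ℝ), HT A z al →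
  ∀ y : Module.End ℚ A.H1, y * z = z * y → (∀ x ∈ V0 A z al, A.ext y x = 0) → y = 0

/-- **BT/C.** The Lie algebra commutes with the complex structure on `V₁`. -/
def S_C : Prop := ∀ (g : ℕ) (A : AbVar g) (z : Module.End ℚ A.H1) (al : ℝ), HT A z al →
  ∀ X ∈ spE A (A.NA : Set (Module.End ℚ A.H1)), ∀ x ∈ V1 A z al,
    X x ∈ V1 A z al ∧ X (Complex.I • x) = Complex.I • X x

/-- a simple submodule `W` of `V₀` which meets the eigenspace of `i al` in a line -/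
structure WS (z : Module.End ℚ A.H1) (al : ℝ) (W : Submodule ℝ (Fin g → ℂ)) (e0 : Fin g → ℂ) :
    Prop where
  le : W ≤ V0 A z al
  stab : ∀ X ∈ A.NA, ∀ x ∈ W, A.ext X x ∈ W
  stabz : ∀ x ∈ W, A.ext z x ∈ W
  simple : ∀ U : Submodule ℝ (Fin g → ℂ), U ≤ W → (∀ X ∈ A.NA, ∀ x ∈ U, A.ext X x ∈ U) →
    (∀ x ∈ U, A.ext z x ∈ U) → U = ⊥ ∨ U = W
  mem : e0 ∈ W
  ne : e0 ≠ 0
  eig : Eig A z al e0
  one : ∀ x ∈ W, Eig A z al x → ∃ c : ℂ, x = c • e0
  gen : ∀ y : Module.End ℝ (Fin g → ℂ), (∀ P ∈ A.EA, y * A.ext P = A.ext P * y) →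
    (∀ x ∈ W, y x = 0) → ∀ x ∈ V0 A z al, y x = 0

/-- **BT/WA.** Existence of a simple submodule. -/
def S_WA : Prop := ∀ (g : ℕ) (A : AbVar g) (z : Module.End ℚ A.H1) (al : ℝ), HT A z al →
  ∃ (W : Submodule ℝ (Fin g → ℂ)) (e0 : Fin g → ℂ), WS A z al W e0

/-- **BT/WB.** Coordinates on the simple submodule. -/
def S_WB : Prop := ∀ (g : ℕ) (A : AbVar g) (z : Module.End ℚ A.H1) (al : ℝ), HT A z al →
  ∀ (W : Submodule ℝ (Fin g → ℂ)) (e0 : Fin g → ℂ), WS A z al W e0 →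
  ∃ (n : ℕ) (φ : V n →ₗ[ℝ] (Fin g → ℂ)), WD A z al n φ

/-- **BT/W.** The simple submodule. -/
def S_W : Prop := ∀ (g : ℕ) (A : AbVar g) (z : Module.End ℚ A.H1) (al : ℝ), HT A z al →
  ∃ (n : ℕ) (φ : V n →ₗ[ℝ] (Fin g → ℂ)), WD A z al n φ

/-- **BT/RR.** The Lie algebra on `W`. -/
def S_RR : Prop := ∀ (g : ℕ) (A : AbVar g) (z : Module.End ℚ A.H1) (al : ℝ), HT A z al →
  ∀ (n : ℕ) (φ : V n →ₗ[ℝ] (Fin g → ℂ)), WD A z al n φ →
  ∀ 𝔮 : Submodule ℚ (Module.End ℚ A.H1), A.Full 𝔮 → RR (rW A (der 𝔮) φ)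

/-- **BT/BB.** A real structure gives an anti-automorphism. -/
def S_BB : Prop := ∀ (g : ℕ) (A : AbVar g) (z : Module.End ℚ A.H1) (al : ℝ), HT A z al →
  ∀ (n : ℕ) (φ : V n →ₗ[ℝ] (Fin g → ℂ)), WD A z al n φ →
  ∀ 𝔮 : Submodule ℚ (Module.End ℚ A.H1), A.Full 𝔮 → RealType (rW A (der 𝔮) φ) → Anti A z

/-- **BT/GA.** All long roots give the complex structure. -/
def S_GA : Prop := ∀ (g : ℕ) (A : AbVar g) (z : Module.End ℚ A.H1) (al : ℝ), HT A z al →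
  ∀ (n : ℕ) (φ : V n →ₗ[ℝ] (Fin g → ℂ)), WD A z al n φ →
  ∀ 𝔮 : Submodule ℚ (Module.End ℚ A.H1), A.Full 𝔮 →
  (∀ x : V n, hf x x = 0 → Complex.I • R x x ∈ rW A (der 𝔮) φ) →
  ∃ J' ∈ spE A (der 𝔮 : Set (Module.End ℚ A.H1)),
    ∀ X ∈ spE A (A.NA : Set (Module.End ℚ A.H1)),
      ((AbVar.JJ : Module.End ℝ (Fin g → ℂ)) - J') * X = X * (AbVar.JJ - J')

end Pool.Agent.N208.BT
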