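import Pool.Agent.N208.BT.Stm2
import Pool.Agent.N208.BT.Stm3

set_option autoImplicit false

/-!
# Abelian varieties with unitary parts of signature `(1, n)`: statements
-/

open Module Matrix

noncomputable section

namespace Pool.Agent.N208.BT

open Pool.Agent.Y102 Pool.Agent.W516.DR Pool.Agent.H204R3.GP Pool.Agent.W516.KC
  Pool.Agent.H204R3.SP Pool.Agent.TH119.MX Pool.Agent.R917 Pool.Agent.N208.AM Pool.Agent.N208.AD

variable {g : ℕ} (A : AbVar g)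

/-- hypotheses for one eigenvalue `i al` of `z` (more general than `HT`: `z` may have a kernel, it is
not assumed that its polynomials form a field, and the other eigenvalues are arbitrary) -/
structure HP (z : Module.End ℚ A.H1) (al : ℝ) : Prop where
  mem : z ∈ A.EA
  cen : ∀ P ∈ A.EA, z * P = P * z
  skew : IsSkew A.om z
  gen : ∀ P ∈ A.EA, (∀ Q ∈ A.EA, P * Q = Q * P) →
    ∃ q : Polynomial ℚ, P * z = Polynomial.aeval z q * z
  ne : al ≠ 0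
  ex : ∃ x, x ≠ 0 ∧ Eig A z al x
  simple : ∀ x y, x ≠ 0 → Eig A z al x → Eig A z al y →
    y ∈ Submodule.span ℂ {w | ∃ P ∈ A.EA, w = A.ext P x}

/-- Every subalgebra `D₁` of the commutant of the endomorphism algebra, which generates it together
with `z` (on the image of `z`), contains elements of `ℚ[z]` which separate the eigenvalues `i a`,
`± a ∈ Sg`. -/
def Sep (z : Module.End ℚ A.H1) (Sg : Finset ℝ) : Prop :=
  ∀ D₁ : Subalgebra ℚ (Module.End ℚ A.H1), (∀ X ∈ D₁, X ∈ CB A) →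
    (∀ X ∈ CB A, ∃ X' ∈ Algebra.adjoin ℚ ((D₁ : Set (Module.End ℚ A.H1)) ∪ {z}),
      X * z = X' * z) →
    ∀ a b : ℝ, (a ∈ Sg ∨ -a ∈ Sg) → (b ∈ Sg ∨ -b ∈ Sg) → a ≠ b →
      ∃ (q : Polynomial ℚ), ∃ X ∈ D₁, X * z = Polynomial.aeval z q * z ∧
        Polynomial.aeval ((a : ℂ) * Complex.I) q ≠ Polynomial.aeval ((b : ℂ) * Complex.I) q

/-- the hypotheses for a finite set of eigenvalues -/
structure HB (z : Module.End ℚ A.H1) (Sg : Finset ℝ) : Prop where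
  hp : ∀ al ∈ Sg, HP A z al
  disj : ∀ al ∈ Sg, -al ∉ Sg
  sep : Sep A z Sg

/-- the pairs of matrices of the elements of the real span of a Lie algebra on two submodules -/
def rW2 (S : Submodule ℚ (Module.End ℚ A.H1)) {n n' : ℕ} (φ : V n →ₗ[ℝ] (Fin g → ℂ))
    (φ' : V n' →ₗ[ℝ] (Fin g → ℂ)) : Submodule ℝ (M n × M n') where
  carrier := {p | ∃ y ∈ spE A (S : Set (Module.End ℚ A.H1)), (∀ x, y (φ x) = φ (p.1 *ᵥ x)) ∧
    ∀ x, y (φ' x) = φ' (p.2 *ᵥ x)}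
  zero_mem' := ⟨0, Submodule.zero_mem _, fun x => by
    rw [LinearMap.zero_apply, Prod.fst_zero, Matrix.zero_mulVec, map_zero], fun x => by
    rw [LinearMap.zero_apply, Prod.snd_zero, Matrix.zero_mulVec, map_zero]⟩
  add_mem' := by
    rintro a b ⟨y, hy, h1, h2⟩ ⟨y', hy', h1', h2'⟩
    exact ⟨y + y', Submodule.add_mem _ hy hy', fun x => by
      rw [LinearMap.add_apply, Prod.fst_add, Matrix.add_mulVec, map_add, h1, h1'], fun x => by
      rw [LinearMap.add_apply, Prod.snd_add, Matrix.add_mulVec, map_add, h2, h2']⟩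
  smul_mem' := by
    rintro c a ⟨y, hy, h1, h2⟩
    exact ⟨c • y, Submodule.smul_mem _ c hy, fun x => by
      rw [LinearMap.smul_apply, Prod.smul_fst, Matrix.smul_mulVec, map_smul, h1], fun x => by
      rw [LinearMap.smul_apply, Prod.smul_snd, Matrix.smul_mulVec, map_smul, h2]⟩

/-- **BT/WA2.** Existence of a simple submodule. -/
def S_WA2 : Prop := ∀ (g : ℕ) (A : AbVar g) (z : Module.End ℚ A.H1) (al : ℝ), HP A z al →
  ∃ (W : Submodule ℝ (Fin g → ℂ)) (e0 : Fin g → ℂ), WS A z al W e0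

/-- **BT/WB2.** Coordinates on the simple submodule. -/
def S_WB2 : Prop := ∀ (g : ℕ) (A : AbVar g) (z : Module.End ℚ A.H1) (al : ℝ), HP A z al →
  ∀ (W : Submodule ℝ (Fin g → ℂ)) (e0 : Fin g → ℂ), WS A z al W e0 →
  ∃ (n : ℕ) (φ : V n →ₗ[ℝ] (Fin g → ℂ)), WD A z al n φ

/-- **BT/RR2.** The Lie algebra on `W`. -/
def S_RR2 : Prop := ∀ (g : ℕ) (A : AbVar g) (z : Module.End ℚ A.H1) (al : ℝ), HP A z al →
  ∀ (n : ℕ) (φ : V n →ₗ[ℝ] (Fin g → ℂ)), WD A z al n φ →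
  ∀ 𝔮 : Submodule ℚ (Module.End ℚ A.H1), A.Full 𝔮 → RR (rW A (der 𝔮) φ)

/-- **BT/S1.** There is no real structure. -/
def S_S1 : Prop := ∀ (g : ℕ) (A : AbVar g) (z : Module.End ℚ A.H1) (Sg : Finset ℝ), HB A z Sg →
  ∀ al ∈ Sg, ∀ (n : ℕ) (φ : V n →ₗ[ℝ] (Fin g → ℂ)), WD A z al n φ →
  ∀ 𝔮 : Submodule ℚ (Module.End ℚ A.H1), A.Full 𝔮 → ¬ RealType (rW A (der 𝔮) φ)

/-- **BT/S2.** There are no links. -/
def S_S2 : Prop := ∀ (g : ℕ) (A : AbVar g) (z : Module.End ℚ A.H1) (Sg : Finset ℝ), HB A z Sg →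
  ∀ al ∈ Sg, ∀ be ∈ Sg, al ≠ be → ∀ (n n' : ℕ) (φ : V n →ₗ[ℝ] (Fin g → ℂ))
  (φ' : V n' →ₗ[ℝ] (Fin g → ℂ)), WD A z al n φ → WD A z be n' φ' →
  ∀ 𝔮 : Submodule ℚ (Module.End ℚ A.H1), A.Full 𝔮 →
  ∀ S : Matrix (Fin (n' + 1)) (Fin (n + 1)) ℂ, S ≠ 0 →
    ¬ (∀ p ∈ rW2 A (der 𝔮) φ φ', p.2 * S = S * p.1) ∧
    ¬ (∀ p ∈ rW2 A (der 𝔮) φ φ', p.2 * S = S * p.1.map star)

/-- **BT/SJ.** All full subalgebras have the same derived algebra on the parts. -/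
def S_SJ : Prop := ∀ (g : ℕ) (A : AbVar g) (z : Module.End ℚ A.H1) (Sg : Finset ℝ), HB A z Sg →
  ∀ 𝔮 : Submodule ℚ (Module.End ℚ A.H1), A.Full 𝔮 →
  ∀ X ∈ spE A (der A.NA : Set (Module.End ℚ A.H1)),
    ∃ y ∈ spE A (der 𝔮 : Set (Module.End ℚ A.H1)), ∀ al ∈ Sg, ∀ x ∈ V0 A z al, X x = y x

end Pool.Agent.N208.BT
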