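import Pool.Agent.N208.AD.Dec

set_option autoImplicit false

/-!
# Full subalgebras are not compact where the Lie algebra of the Hodge group is not compact: statements
-/

open Module Matrix

noncomputable section

namespace Pool.Agent.N208.BT

open Pool.Agent.Y102 Pool.Agent.W516.DR Pool.Agent.H204R3.GP Pool.Agent.W516.KC
  Pool.Agent.H204R3.SP Pool.Agent.TH119.MX Pool.Agent.R917 Pool.Agent.N208.AM Pool.Agent.N208.AD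

variable {g : ℕ} (A : AbVar g)

/-- an ideal of the real Lie algebra `spE A A.NA` -/
structure IdE (𝔫 : Submodule ℝ (Module.End ℝ (Fin g → ℂ))) : Prop where
  le : ∀ Y ∈ 𝔫, Y ∈ spE A (A.NA : Set (Module.End ℚ A.H1))
  br : ∀ Y ∈ 𝔫, ∀ Z ∈ spE A (A.NA : Set (Module.End ℚ A.H1)), Z * Y - Y * Z ∈ 𝔫

/-- the orthogonal ideal for the trace form -/
def perpE (𝔫 : Submodule ℝ (Module.End ℝ (Fin g → ℂ))) :
    Submodule ℝ (Module.End ℝ (Fin g → ℂ)) where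
  carrier := {Y | Y ∈ spE A (A.NA : Set (Module.End ℚ A.H1)) ∧
    ∀ Z ∈ 𝔫, LinearMap.trace ℝ (Fin g → ℂ) (Y * Z) = 0}
  zero_mem' := ⟨Submodule.zero_mem _, fun Z _ => by rw [zero_mul, map_zero]⟩
  add_mem' := fun {a b} ha hb => ⟨Submodule.add_mem _ ha.1 hb.1, fun Z hZ => by
    rw [add_mul, map_add, ha.2 Z hZ, hb.2 Z hZ, add_zero]⟩
  smul_mem' := fun c a ha => ⟨Submodule.smul_mem _ c ha.1, fun Z hZ => by
    rw [smul_mul_assoc, map_smul, ha.2 Z hZ, smul_zero]⟩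

/-- **NC/D.** The decomposition given by an ideal. -/
def S_NCD : Prop := ∀ (g : ℕ) (A : AbVar g) (𝔫 : Submodule ℝ (Module.End ℝ (Fin g → ℂ))),
  IdE A 𝔫 → IdE A (perpE A 𝔫) ∧ (∀ Y ∈ 𝔫, ∀ Z ∈ perpE A 𝔫, Y * Z = Z * Y) ∧
    (∀ Y ∈ 𝔫, Y ∈ perpE A 𝔫 → Y = 0) ∧
    ∀ Y ∈ spE A (A.NA : Set (Module.End ℚ A.H1)), ∃ Y₁ ∈ 𝔫, ∃ Y₂ ∈ perpE A 𝔫, Y = Y₁ + Y₂

/-- **NC/E.** A Lie algebra which is compact modulo the ideal `𝔫`: then the complex structure is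
central modulo `𝔫`. -/
def S_NCE : Prop := ∀ (g : ℕ) (A : AbVar g) (𝔮 : Submodule ℚ (Module.End ℚ A.H1)), A.Full 𝔮 →
  ∀ (𝔫 : Submodule ℝ (Module.End ℝ (Fin g → ℂ)))
    (β : Module.End ℝ (Fin g → ℂ) →ₗ[ℝ] Module.End ℝ (Fin g → ℂ) →ₗ[ℝ] ℝ), IdE A 𝔫 →
  (∀ Y ∈ spE A (A.NA : Set (Module.End ℚ A.H1)),
    ∀ Z ∈ spE A (A.NA : Set (Module.End ℚ A.H1)), β Y Z = β Z Y) →
  (∀ Y ∈ spE A (A.NA : Set (Module.End ℚ A.H1)), 0 ≤ β Y Y) →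
  (∀ Y ∈ spE A (A.NA : Set (Module.End ℚ A.H1)), β Y Y = 0 → Y ∈ 𝔫) →
  (∀ X ∈ 𝔮, ∀ Y ∈ spE A (A.NA : Set (Module.End ℚ A.H1)),
    ∀ Z ∈ spE A (A.NA : Set (Module.End ℚ A.H1)),
      β (A.ext X * Y - Y * A.ext X) Z + β Y (A.ext X * Z - Z * A.ext X) = 0) →
  ∀ Y ∈ spE A (A.NA : Set (Module.End ℚ A.H1)),
    (AbVar.JJ : Module.End ℝ (Fin g → ℂ)) * Y - Y * AbVar.JJ ∈ 𝔫

end Pool.Agent.N208.BT
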